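import Pool.Agent.Helper562.Kuhn
import Pool.Agent.Helper162.Arc.PA

set_option autoImplicit false

/-!
Products of nondegenerate continua have large covering dimension; the pseudo-arc has no
nonconstant paths.
-/

open Set Topology Filter unitInterval

namespace Pool.Agent.Helper49K9.PC

/-- `DimLE X n`: the covering dimension of `X` is at most `n`. Every finite open cover has a finite
open refinement such that every point lies in at most `n + 1` of its members. -/
def DimLE (X : Type) [TopologicalSpace X] (n : ℕ) : Prop :=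
  ∀ U : Set (Set X), U.Finite → (∀ A ∈ U, IsOpen A) → ⋃₀ U = univ →
    ∃ V : Set (Set X), V.Finite ∧ (∀ B ∈ V, IsOpen B) ∧ ⋃₀ V = univ ∧
      (∀ B ∈ V, ∃ A ∈ U, B ⊆ A) ∧ ∀ x : X, {B ∈ V | x ∈ B}.ncard ≤ n + 1

/-- Chains in a connected metric space. -/
lemma exists_chain {K : Type*} [MetricSpace K] [ConnectedSpace K] {ε : ℝ} (hε : 0 < ε) (a b : K) :
    ∃ (m : ℕ) (c : ℕ → K), c 0 = a ∧ c m = b ∧ ∀ i, dist (c i) (c (i + 1)) < ε := by
  let S : Set K := {x | ∃ (m : ℕ) (c : ℕ → K), c 0 = a ∧ c m = x ∧ ∀ i, dist (c i) (c (i + 1)) < ε}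
  have hstep : ∀ x y, x ∈ S → dist x y < ε → y ∈ S := by
    rintro x y ⟨m, c, h0, hm, hc⟩ hxy
    refine ⟨m + 1, fun i => if i ≤ m then c i else y, ?_, ?_, ?_⟩
    · simp [h0]
    · simp
    · intro i
      simp only
      rcases lt_trichotomy i m with h | h | h
      · rw [if_pos (by omega), if_pos (by omega)]
        exact hc i
      · rw [if_pos (by omega), if_neg (by omega), h, hm]
        exact hxy
      · rw [if_neg (by omega), if_neg (by omega), dist_self]
        exact hε
  have hclopen : IsClopen S := by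
    constructor
    · rw [← isOpen_compl_iff, Metric.isOpen_iff]
      intro x hx
      refine ⟨ε, hε, fun y hy hyS => hx (hstep y x hyS ?_)⟩
      exact hy
    · rw [Metric.isOpen_iff]
      intro x hx
      refine ⟨ε, hε, fun y hy => hstep x y hx ?_⟩
      rw [dist_comm]
      exact hy
  have hS : S = univ := hclopen.eq_univ ⟨a, 0, fun _ => a, rfl, rfl, fun i => by simpa using hε⟩
  have : b ∈ S := by rw [hS]; trivial
  exact this

/-- The power `K ^ (N + 1)` of a nondegenerate continuum has dimension bigger than `N`. -/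
theorem not_dimLE_pow {K : Type} [TopologicalSpace K] [TopologicalSpace.MetrizableSpace K]
    [CompactSpace K] [ConnectedSpace K] {a b : K} (hab : a ≠ b) (N : ℕ) :
    ¬ DimLE (Fin (N + 1) → K) N := by
  classical
  let _ : MetricSpace K := TopologicalSpace.metrizableSpaceMetric K
  intro hdim
  let U : Set (Fin (N + 1)) → Set (Fin (N + 1) → K) := fun S =>
    {p | (∀ i ∈ S, p i ≠ b) ∧ ∀ i, i ∉ S → p i ≠ a}
  have hUo : ∀ S, IsOpen (U S) := by
    intro S
    have : U S = ⋂ i : Fin (N + 1), {p | (i ∈ S → p i ≠ b) ∧ (i ∉ S → p i ≠ a)} := by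
      ext p
      simp only [U, mem_setOf_eq, mem_iInter]
      exact ⟨fun h i => ⟨h.1 i, h.2 i⟩, fun h => ⟨fun i => (h i).1, fun i => (h i).2⟩⟩
    rw [this]
    apply isOpen_iInter_of_finite
    intro i
    by_cases hi : i ∈ S
    · simp only [hi, true_imp_iff, not_true_eq_false, false_imp_iff, and_true]
      exact isOpen_ne_fun (continuous_apply i) continuous_const
    · simp only [hi, false_imp_iff, not_false_eq_true, true_imp_iff, true_and]
      exact isOpen_ne_fun (continuous_apply i) continuous_const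
  obtain ⟨𝒱, hf, ho, hc, hr, hord⟩ := hdim (range U) (finite_range U) (by
    rintro _ ⟨S, rfl⟩
    exact hUo S) (by
    rw [eq_univ_iff_forall]
    intro p
    refine ⟨U {i | p i ≠ b}, ⟨_, rfl⟩, ?_, ?_⟩
    · intro i hi
      exact hi
    · intro i hi
      simp only [mem_setOf_eq, not_not] at hi
      rw [hi]
      exact hab.symm)
  obtain ⟨δ, hδ, hleb⟩ := lebesgue_number_lemma_of_metric (isCompact_univ (X := Fin (N + 1) → K))
    (c := fun V : 𝒱 => (V : Set (Fin (N + 1) → K))) (fun V => ho V V.2)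
    (by
      intro p _
      have : p ∈ ⋃₀ 𝒱 := by rw [hc]; trivial
      obtain ⟨V, hV, hpV⟩ := this
      exact mem_iUnion.2 ⟨⟨V, hV⟩, hpV⟩)
  have hleb' : ∀ p : Fin (N + 1) → K, ∃ V ∈ 𝒱, Metric.ball p δ ⊆ V := by
    intro p
    obtain ⟨V, hV⟩ := hleb p (mem_univ p)
    exact ⟨V, V.2, hV⟩
  choose V hV𝒱 hVball using hleb'
  obtain ⟨m, c, hc0, hcm, hcd⟩ := exists_chain hδ a b
  have hm0 : 0 < m := by
    rcases Nat.eq_zero_or_pos m with h | h
    · rw [h, hc0] at hcm
      exact absurd hcm hab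
    · exact h
  let pt : (ℕ → ℕ) → (Fin (N + 1) → K) := fun x i => c (min (x i) m)
  have hptv : ∀ x (i : Fin (N + 1)), pt x i = c (min (x i) m) := fun x i => rfl
  -- labels of members
  let Q : Set (Fin (N + 1) → K) → ℕ → Prop := fun W i => ∃ h : i < N + 1, ∃ p ∈ W, p ⟨i, h⟩ = b
  let lab : Set (Fin (N + 1) → K) → ℕ := fun W => if h : ∃ i, Q W i then Nat.find h else N + 1
  have hlab_le : ∀ W i, Q W i → lab W ≤ i := by
    intro W i hi
    have hex : ∃ i, Q W i := ⟨i, hi⟩
    simp only [lab, hex, dif_pos]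
    exact Nat.find_min' hex hi
  have hlab_n : ∀ W, lab W ≤ N + 1 := by
    intro W
    by_cases hex : ∃ i, Q W i
    · obtain ⟨i, hi⟩ := hex
      exact (hlab_le W i hi).trans hi.1.le
    · simp [lab, hex]
  have hlab_eq : ∀ W i, i < N + 1 → lab W = i → Q W i := by
    intro W i hi h
    by_cases hex : ∃ i, Q W i
    · have h1 : lab W = Nat.find hex := by simp only [lab, hex, dif_pos]
      rw [← h, h1]
      exact Nat.find_spec hex
    · simp only [lab, hex, dif_neg, not_false_eq_true] at h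
      omega
  have hself : ∀ p, p ∈ V p := fun p => hVball p (Metric.mem_ball_self hδ)
  obtain ⟨x, hx, hlabs⟩ := Pool.Agent.Helper562.Kuhn.kuhn (N + 1) m (fun x => lab (V (pt x)))
    (fun x _ => hlab_n _)
    (by
      intro i hi x _ hxi hl
      obtain ⟨_, p, hp, hp1⟩ := hlab_eq _ i hi hl
      obtain ⟨W, ⟨S, rfl⟩, hWS⟩ := hr _ (hV𝒱 (pt x))
      have h1 := hWS hp
      have h2 := hWS (hself (pt x))
      by_cases hS : (⟨i, hi⟩ : Fin (N + 1)) ∈ S
      · exact h1.1 _ hS hp1
      · refine h2.2 _ hS ?_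
        rw [hptv]
        simp [hxi, hc0])
    (by
      intro i hi x _ hxi
      apply hlab_le
      refine ⟨hi, pt x, hself _, ?_⟩
      rw [hptv]
      simp only [hxi, min_self, hcm])
  -- the point `pt x` lies in `N + 2` members
  choose! y hy1 _ hy3 using hlabs
  have hmem : ∀ j ≤ N + 1, pt x ∈ V (pt (y j)) := by
    intro j hj
    apply hVball
    rw [Metric.mem_ball, dist_pi_lt_iff hδ]
    intro i
    rw [hptv, hptv]
    have h1 := hx i i.2
    have h2 := hy1 j hj i i.2
    have h3 : min (x i) m = x i := min_eq_left h1.le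
    rcases h2 with h2 | h2
    · rw [h2, dist_self]
      exact hδ
    · have h4 : min (y j i) m = x i + 1 := by omega
      rw [h3, h4]
      exact hcd _
  have hcard := hord (pt x)
  have hsub : (fun j => V (pt (y j))) '' (Finset.range (N + 2) : Set ℕ) ⊆ {W ∈ 𝒱 | pt x ∈ W} := by
    rintro _ ⟨j, hj, rfl⟩
    have hj' : j ≤ N + 1 := by
      simp at hj
      omega
    exact ⟨hV𝒱 _, hmem j hj'⟩
  have hinj : InjOn (fun j => V (pt (y j))) (Finset.range (N + 2) : Set ℕ) := by
    intro j hj j' hj' hjj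
    simp only [Finset.coe_range, mem_Iio] at hj hj'
    have h1 := hy3 j (by omega)
    have h2 := hy3 j' (by omega)
    simp only at hjj h1 h2
    rw [hjj] at h1
    omega
  have h5 := ncard_le_ncard hsub (hf.subset (sep_subset _ _))
  rw [hinj.ncard_image, ncard_coe_finset, Finset.card_range] at h5
  omega

/-- Monotonicity of the covering dimension for closed embeddings. -/
theorem dimLE_closed {W X : Type} [TopologicalSpace W] [TopologicalSpace X] {e : W → X}
    (he : IsClosedEmbedding e) {n : ℕ} (h : DimLE X n) : DimLE W n := by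
  classical
  intro U hU hUo hUc
  have hext : ∀ A ∈ U, ∃ A' : Set X, IsOpen A' ∧ e ⁻¹' A' = A := fun A hA =>
    he.isInducing.isOpen_iff.1 (hUo A hA)
  choose! ex hexo hexe using hext
  obtain ⟨V, hV, hVo, hVc, hVr, hVn⟩ := h (insert (range e)ᶜ (ex '' U)) ((hU.image _).insert _)
    (by
      rintro A (rfl | ⟨A, hA, rfl⟩)
      · exact he.isClosed_range.isOpen_compl
      · exact hexo A hA)
    (by
      rw [eq_univ_iff_forall]
      intro x
      by_cases hx : x ∈ range e
      · obtain ⟨w, rfl⟩ := hx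
        have : w ∈ ⋃₀ U := by rw [hUc]; trivial
        obtain ⟨A, hA, hwA⟩ := this
        refine ⟨ex A, Or.inr ⟨A, hA, rfl⟩, ?_⟩
        rw [← hexe A hA] at hwA
        exact hwA
      · exact ⟨_, Or.inl rfl, hx⟩)
  refine ⟨(fun B => e ⁻¹' B) '' {B ∈ V | (e ⁻¹' B).Nonempty}, (hV.subset (sep_subset _ _)).image _,
    ?_, ?_, ?_, ?_⟩
  · rintro _ ⟨B, hB, rfl⟩
    exact (hVo B hB.1).preimage he.continuous
  · rw [eq_univ_iff_forall]
    intro w
    have : e w ∈ ⋃₀ V := by rw [hVc]; trivial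
    obtain ⟨B, hB, hwB⟩ := this
    exact ⟨_, ⟨B, ⟨hB, ⟨w, hwB⟩⟩, rfl⟩, hwB⟩
  · rintro _ ⟨B, ⟨hB, ⟨w, hw⟩⟩, rfl⟩
    obtain ⟨A, hA, hBA⟩ := hVr B hB
    rcases hA with rfl | ⟨A, hA, rfl⟩
    · exact absurd ⟨w, rfl⟩ (hBA hw)
    · refine ⟨A, hA, ?_⟩
      rw [← hexe A hA]
      exact preimage_mono hBA
  · intro w
    refine le_trans ?_ (hVn (e w))
    have h1 : {B ∈ (fun B => e ⁻¹' B) '' {B ∈ V | (e ⁻¹' B).Nonempty} | w ∈ B} ⊆
        (fun B => e ⁻¹' B) '' {B ∈ V | e w ∈ B} := by
      rintro _ ⟨⟨B, hB, rfl⟩, hw⟩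
      exact ⟨B, ⟨hB.1, hw⟩, rfl⟩
    have hfin : {B ∈ V | e w ∈ B}.Finite := hV.subset (sep_subset _ _)
    exact (ncard_le_ncard h1 (hfin.image _)).trans (ncard_image_le hfin)

open Pool.Agent.Helper162.Arc in
/-- The pseudo-arc has no nonconstant paths. -/
theorem pa_path (p : C(I, PA)) : p 0 = p 1 := by
  by_contra hne
  obtain ⟨k, hk⟩ : ∃ k, (p 0).1 k ≠ (p 1).1 k := by
    by_contra h
    push Not at h
    exact hne (Subtype.ext (funext h))
  -- the coordinate along the path
  let q : ℝ → PA := fun t => p (projIcc 0 1 zero_le_one t)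
  have hq : Continuous q := p.continuous.comp continuous_projIcc
  let u : PA → ℝ := fun x => (x.1 k : ℝ)
  have hu : Continuous u :=
    continuous_subtype_val.comp ((continuous_apply k).comp continuous_subtype_val)
  let ε : ℝ := |u (p 0) - u (p 1)|
  have hε : 0 < ε := by
    refine abs_pos.2 (sub_ne_zero.2 ?_)
    intro h
    exact hk (Subtype.ext h)
  have huc : UniformContinuousOn (fun t => u (q t)) (Icc (0 : ℝ) 1) :=
    isCompact_Icc.uniformContinuousOn_of_continuous (hu.comp hq).continuousOn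
  rw [Metric.uniformContinuousOn_iff] at huc
  obtain ⟨δ, hδ, hδ'⟩ := huc ε hε
  obtain ⟨N, hN⟩ := exists_nat_gt (1 / δ)
  have hN0 : (0 : ℝ) < N := lt_trans (by positivity) hN
  have hNδ : 1 / (N : ℝ) < δ := by
    rw [div_lt_iff₀ hN0]
    rw [div_lt_iff₀ hδ] at hN
    linarith
  have key : ∀ i : ℕ, i ≤ N → ∀ x ∈ Icc (0 : ℝ) (i / N), ∀ y ∈ Icc (0 : ℝ) (i / N),
      |u (q x) - u (q y)| < ε := by
    intro i
    induction i with
    | zero =>
      intro _ x hx y hy
      simp only [Nat.cast_zero, zero_div, Icc_self, mem_singleton_iff] at hx hy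
      rw [hx, hy, sub_self, abs_zero]
      exact hε
    | succ i ih =>
      intro hi x hx y hy
      have hi0 : (0 : ℝ) ≤ i / N := by positivity
      have hi1 : (i / N : ℝ) ≤ ((i + 1 : ℕ) : ℝ) / N := by
        gcongr
        simp
      have hi2 : ((i + 1 : ℕ) : ℝ) / N ≤ 1 := by
        rw [div_le_one hN0]
        exact_mod_cast hi
      have hlen : ((i + 1 : ℕ) : ℝ) / N - i / N = 1 / N := by
        push_cast
        ring
      have hcont : ∀ s t : ℝ, s ≤ t → IsContinuum (q '' Icc s t) := fun s t hst =>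
        ⟨isCompact_Icc.image hq, (isConnected_Icc hst).image q hq.continuousOn⟩
      have hun : q '' Icc 0 (i / N : ℝ) ∪ q '' Icc (i / N : ℝ) (((i + 1 : ℕ) : ℝ) / N) =
          q '' Icc 0 (((i + 1 : ℕ) : ℝ) / N) := by
        rw [← image_union, Icc_union_Icc_eq_Icc hi0 hi1]
      have hdec := pa_hi (hcont 0 (((i + 1 : ℕ) : ℝ) / N) (hi0.trans hi1))
      have hcases : q '' Icc 0 (i / N : ℝ) = q '' Icc 0 (((i + 1 : ℕ) : ℝ) / N) ∨
          q '' Icc (i / N : ℝ) (((i + 1 : ℕ) : ℝ) / N) = q '' Icc 0 (((i + 1 : ℕ) : ℝ) / N) := by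
        by_contra hcon
        push Not at hcon
        exact hdec ⟨_, _, hcont _ _ hi0, hcont _ _ hi1, by rw [← hun]; exact subset_union_left,
          by rw [← hun]; exact subset_union_right, hcon.1, hcon.2, hun⟩
      have hx' : q x ∈ q '' Icc 0 (((i + 1 : ℕ) : ℝ) / N) := ⟨x, hx, rfl⟩
      have hy' : q y ∈ q '' Icc 0 (((i + 1 : ℕ) : ℝ) / N) := ⟨y, hy, rfl⟩
      rcases hcases with h | h
      · rw [← h] at hx' hy'
        obtain ⟨x', hx1, hx2⟩ := hx'
        obtain ⟨y', hy1, hy2⟩ := hy'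
        rw [← hx2, ← hy2]
        exact ih (by omega) x' hx1 y' hy1
      · rw [← h] at hx' hy'
        obtain ⟨x', hx1, hx2⟩ := hx'
        obtain ⟨y', hy1, hy2⟩ := hy'
        rw [← hx2, ← hy2]
        have := hδ' x' ⟨hi0.trans hx1.1, hx1.2.trans hi2⟩ y' ⟨hi0.trans hy1.1, hy1.2.trans hi2⟩ (by
          rw [Real.dist_eq]
          refine lt_of_le_of_lt ?_ hNδ
          rw [abs_le]
          constructor <;> linarith [hx1.1, hx1.2, hy1.1, hy1.2])
        rwa [Real.dist_eq] at this
  have hfin := key N le_rfl 0 ⟨le_rfl, by positivity⟩ 1 ⟨zero_le_one, by rw [div_self hN0.ne']⟩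
  have e0 : q 0 = p 0 := by
    simp only [q]
    congr 1
    exact projIcc_left _
  have e1 : q 1 = p 1 := by
    simp only [q]
    congr 1
    exact projIcc_right _
  rw [e0, e1] at hfin
  exact lt_irrefl _ hfin

end Pool.Agent.Helper49K9.PC
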