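import Pool.Agent.Helper49K9.PC.Med

set_option autoImplicit false

/-!
Triviality of the higher homotopy groups of all subsets.
-/

open Set Topology Filter unitInterval

namespace Pool.Agent.Helper49K9.PC

/-- Convex combination in the unit interval. -/
def cc (s a b : I) : I := ⟨(1 - s) * a + s * b, by
  have h1 := s.2.1
  have h2 := s.2.2
  have h3 := a.2.1
  have h4 := a.2.2
  have h5 := b.2.1
  have h6 := b.2.2
  constructor
  · have := mul_nonneg (sub_nonneg.2 h2) h3
    have := mul_nonneg h1 h5
    linarith
  · have := mul_le_mul_of_nonneg_left h4 (sub_nonneg.2 h2)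
    have := mul_le_mul_of_nonneg_left h6 h1
    linarith⟩

lemma continuous_cc : Continuous fun p : I × I × I => cc p.1 p.2.1 p.2.2 := by
  unfold cc
  fun_prop

lemma cc_zero (a b : I) : cc 0 a b = a := by
  apply Subtype.ext
  simp [cc]

lemma cc_one (a b : I) : cc 1 a b = b := by
  apply Subtype.ext
  simp [cc]

lemma dist_cc (s a b : I) : dist (cc s a b) a ≤ dist b a := by
  rw [Subtype.dist_eq, Subtype.dist_eq, Real.dist_eq, Real.dist_eq]
  have e : ((cc s a b : I) : ℝ) - a = s * ((b : ℝ) - a) := by
    simp only [cc]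
    ring
  rw [e, abs_mul, abs_of_nonneg s.2.1]
  have := mul_le_mul_of_nonneg_right s.2.2 (abs_nonneg ((b : ℝ) - a))
  linarith

variable {m : ℕ}

instance cube_lpc : LocallyPathConnectedSpace (Fin m → I) := by
  refine LocallyPathConnectedSpace.of_bases (fun x => Metric.nhds_basis_ball) ?_
  intro x r hr
  refine ⟨x, Metric.mem_ball_self hr, ?_⟩
  intro y hy
  refine ⟨⟨⟨fun s i => cc s (x i) (y i), ?_⟩, ?_, ?_⟩, ?_⟩
  · refine continuous_pi fun i => ?_
    exact continuous_cc.comp (by fun_prop : Continuous fun s : I => (s, x i, y i))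
  · funext i
    exact cc_zero _ _
  · funext i
    exact cc_one _ _
  · intro s
    rw [Metric.mem_ball] at hy ⊢
    refine lt_of_le_of_lt ?_ hy
    rw [dist_pi_le_iff dist_nonneg]
    intro i
    exact (dist_cc s (x i) (y i)).trans (dist_le_pi_dist y x i)

instance cube_contr : ContractibleSpace (Fin m → I) := by
  rw [contractible_iff_id_nullhomotopic]
  refine ⟨fun _ => 0, ⟨⟨⟨fun p i => cc p.1 (p.2 i) 0, ?_⟩, ?_, ?_⟩⟩⟩
  · refine continuous_pi fun i => ?_
    exact continuous_cc.comp (by fun_prop : Continuous fun p : I × (Fin m → I) => (p.1, p.2 i, (0 : I)))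
  · intro x
    funext i
    exact cc_zero _ _
  · intro x
    funext i
    exact cc_one _ _

instance cube_sc : SimplyConnectedSpace (Fin m → I) := SimplyConnectedSpace.ofContractible _

/-- A connected set in the boundary of the cube joining a point to the origin. -/
lemma bd_conn (hm : 2 ≤ m) (b : Fin m → I) (hb : b ∈ Cube.boundary (Fin m)) :
    ∃ L : Set (Fin m → I), IsPreconnected L ∧ (fun _ => (0 : I)) ∈ L ∧ b ∈ L ∧
      L ⊆ Cube.boundary (Fin m) := by
  obtain ⟨i, hi⟩ := hb
  obtain ⟨j, hj⟩ : ∃ j : Fin m, j ≠ i := by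
    by_cases h : (i : ℕ) = 0
    · exact ⟨⟨1, by omega⟩, fun e => by rw [← e] at h; simp at h⟩
    · exact ⟨⟨0, by omega⟩, fun e => by rw [← e] at h; simp at h⟩
  let b' : Fin m → I := Function.update b j 0
  let g1 : I → (Fin m → I) := fun s => Function.update b j (cc s 0 (b j))
  let g2 : I → (Fin m → I) := fun s k => cc s 0 (b' k)
  have c1 : Continuous g1 := by
    refine continuous_const.update j ?_
    exact continuous_cc.comp (by fun_prop : Continuous fun s : I => (s, (0 : I), b j))
  have c2 : Continuous g2 := by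
    refine continuous_pi fun k => ?_
    exact continuous_cc.comp (by fun_prop : Continuous fun s : I => (s, (0 : I), b' k))
  have e10 : g1 0 = b' := by
    simp only [g1, cc_zero, b']
  have e11 : g1 1 = b := by
    simp only [g1, cc_one, Function.update_eq_self]
  have e20 : g2 0 = fun _ => 0 := by
    funext k
    simp only [g2, cc_zero]
  have e21 : g2 1 = b' := by
    funext k
    simp only [g2, cc_one]
  refine ⟨range g1 ∪ range g2, (isPreconnected_range c1).union b' ⟨0, e10⟩ ⟨1, e21⟩
    (isPreconnected_range c2), Or.inr ⟨0, e20⟩, Or.inl ⟨1, e11⟩, ?_⟩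
  rintro _ (⟨s, rfl⟩ | ⟨s, rfl⟩)
  · refine ⟨i, ?_⟩
    simp only [g1, Function.update_of_ne hj.symm]
    exact hi
  · refine ⟨j, Or.inl ?_⟩
    simp only [g2, b', Function.update_self]
    apply Subtype.ext
    simp [cc]

/-- The higher homotopy groups of all subsets are trivial. -/
theorem hom_trivial {X : Type*} [TopologicalSpace X] [T2Space X] {Z : Set X} (hZ : PathFree Z)
    (hR : RimFin Z) (M : Set X) (x : M) (hm : 2 ≤ m) :
    Subsingleton (HomotopyGroup (Fin m) M x) := by
  have key : ∀ F : GenLoop (Fin m) M x, GenLoop.Homotopic GenLoop.const F := by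
    intro F
    let f : (Fin m → I) → X := fun y => (F y : X)
    have hFc : Continuous fun y => F y := F.1.continuous
    have hf : Continuous f := continuous_subtype_val.comp hFc
    obtain ⟨g, hg, hgm, hg0, hg1, hgb⟩ := exists_med hZ hR hf (fun _ => (0 : I))
    have h0 : f (fun _ => 0) = x := by
      have : F (fun _ => 0) = x := by
        refine F.2 _ ⟨⟨0, by omega⟩, Or.inl rfl⟩
      simp only [f, this]
    have hmemM : ∀ y, g y ∈ M := by
      intro y
      obtain ⟨s, hs⟩ := hgm y
      rw [← hs]
      exact (F s).2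
    refine ⟨⟨⟨⟨fun p => ⟨g ((fun _ => 0), p.2, fun i => cc p.1 0 (p.2 i)), hmemM _⟩, ?_⟩, ?_, ?_⟩,
      ?_⟩⟩
    · refine Continuous.subtype_mk (hg.comp ?_) _
      refine continuous_const.prodMk (continuous_snd.prodMk (continuous_pi fun i => ?_))
      exact continuous_cc.comp
        (by fun_prop : Continuous fun p : I × (Fin m → I) => (p.1, (0 : I), p.2 i))
    · intro y
      apply Subtype.ext
      have e : (fun i => cc 0 0 (y i)) = fun _ : Fin m => (0 : I) := by
        funext i
        exact cc_zero _ _
      show g ((fun _ => 0), y, fun i => cc 0 0 (y i)) = x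
      rw [e, hg0, h0]
    · intro y
      apply Subtype.ext
      have e : (fun i => cc 1 0 (y i)) = y := by
        funext i
        exact cc_one _ _
      show g ((fun _ => 0), y, fun i => cc 1 0 (y i)) = f y
      rw [e, hg1]
    · intro t y hy
      obtain ⟨L, hL1, hL2, hL3, hL4⟩ := bd_conn hm y hy
      apply Subtype.ext
      show g ((fun _ => 0), y, fun i => cc t 0 (y i)) = x
      rw [← h0]
      refine hgb L hL1 hL2 ?_ y hL3 _
      intro z hz
      rw [h0]
      have : F z = x := F.2 z (hL4 hz)
      simp only [f, this]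
  constructor
  intro a b
  induction a using Quotient.inductionOn with
  | _ a =>
  induction b using Quotient.inductionOn with
  | _ b =>
  exact Quotient.sound ((key a).symm.trans (key b))

end Pool.Agent.Helper49K9.PC
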