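import Pool.Agent.Helper49K9.PC.Sep

set_option autoImplicit false

/-!
Medians from a nested family of open sets, and contraction of maps.
-/

open Set Topology Filter unitInterval

namespace Pool.Agent.Helper49K9.PC

section nested

variable {Y : Type*} [TopologicalSpace Y] [LocallyConnectedSpace Y] [ConnectedSpace Y]

/-- The complement of a component of the complement of a connected closed set is connected. -/
lemma compl_comp {F : Set Y} (hF : IsClosed F) (hFc : IsPreconnected F) (hFn : F.Nonempty)
    (y : Y) : IsPreconnected (connectedComponentIn Fᶜ y)ᶜ := by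
  have hEo : IsOpen (connectedComponentIn Fᶜ y) := hF.isOpen_compl.connectedComponentIn
  have hEs : connectedComponentIn Fᶜ y ⊆ Fᶜ := connectedComponentIn_subset _ _
  have hfr : frontier (connectedComponentIn Fᶜ y) ⊆ F := by
    have := frontier_comp hF.isOpen_compl y
    rwa [compl_compl] at this
  have hFE : F ⊆ (connectedComponentIn Fᶜ y)ᶜ := by
    intro x hx hxE
    exact hEs hxE hx
  rw [isPreconnected_iff_subset_of_fully_disjoint_closed hEo.isClosed_compl]
  have key : ∀ u v : Set Y, IsClosed u → IsClosed v → (connectedComponentIn Fᶜ y)ᶜ ⊆ u ∪ v →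
      Disjoint u v → F ⊆ u → (connectedComponentIn Fᶜ y)ᶜ ⊆ u := by
    intro u v hu hv huv hd hFu
    let Q : Set Y := (connectedComponentIn Fᶜ y)ᶜ ∩ v
    have hQc : IsClosed Q := hEo.isClosed_compl.inter hv
    have hQ : Qᶜ = closure (connectedComponentIn Fᶜ y) ∪ ((connectedComponentIn Fᶜ y)ᶜ ∩ u) := by
      ext x
      simp only [Q, mem_compl_iff, mem_inter_iff, mem_union, not_and, not_not]
      constructor
      · intro h
        by_cases hx : x ∈ connectedComponentIn Fᶜ y
        · exact Or.inl (subset_closure hx)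
        · refine Or.inr ⟨hx, ?_⟩
          rcases huv hx with h1 | h1
          · exact h1
          · exact absurd h1 (h hx)
      · rintro (h | ⟨h, h'⟩) h1
        · have : x ∈ F := hfr (by
            rw [hEo.frontier_eq]
            exact ⟨h, h1⟩)
          exact fun h2 => disjoint_left.1 hd (hFu this) h2
        · exact fun h2 => disjoint_left.1 hd h' h2
    have hQo : IsOpen Q := by
      rw [← isClosed_compl_iff, hQ]
      exact isClosed_closure.union (hEo.isClosed_compl.inter hu)
    rcases isClopen_iff.1 ⟨hQc, hQo⟩ with h | h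
    · intro x hx
      rcases huv hx with h1 | h1
      · exact h1
      · have : x ∈ Q := ⟨hx, h1⟩
        rw [h] at this
        exact absurd this (notMem_empty x)
    · obtain ⟨z, hz⟩ := hFn
      have h1 : z ∈ Q := by
        rw [h]
        trivial
      exact absurd h1.2 (fun h2 => disjoint_left.1 hd (hFu hz) h2)
  intro u v hu hv huv hd
  have hFuv : F ⊆ u ∪ v := hFE.trans huv
  rcases (isPreconnected_iff_subset_of_fully_disjoint_closed hF).1 hFc u v hu hv hFuv hd with h | h
  · exact Or.inl (key u v hu hv huv hd h)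
  · exact Or.inr (key v u hv hu (by rwa [union_comm]) hd.symm h)

/-- Components of the complements of equal or disjoint connected closed sets are nested. -/
lemma nested {F F' : Set Y} (hF : IsClosed F) (hFc : IsPreconnected F) (hFn : F.Nonempty)
    (hF' : IsClosed F') (hFc' : IsPreconnected F') (hFn' : F'.Nonempty)
    (hFF : F = F' ∨ Disjoint F F') (y y' : Y) :
    connectedComponentIn Fᶜ y ⊆ connectedComponentIn F'ᶜ y' ∨
    connectedComponentIn F'ᶜ y' ⊆ connectedComponentIn Fᶜ y ∨
    Disjoint (connectedComponentIn Fᶜ y) (connectedComponentIn F'ᶜ y') ∨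
    connectedComponentIn Fᶜ y ∪ connectedComponentIn F'ᶜ y' = univ := by
  have hEs : connectedComponentIn Fᶜ y ⊆ Fᶜ := connectedComponentIn_subset _ _
  have hEs' : connectedComponentIn F'ᶜ y' ⊆ F'ᶜ := connectedComponentIn_subset _ _
  -- a connected set in the complement of `F'` is in the component or disjoint from it
  have key : ∀ S : Set Y, IsPreconnected S → S ⊆ F'ᶜ →
      S ⊆ connectedComponentIn F'ᶜ y' ∨ Disjoint S (connectedComponentIn F'ᶜ y') := by
    intro S hS hSF
    by_cases h : Disjoint S (connectedComponentIn F'ᶜ y')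
    · exact Or.inr h
    · left
      rw [not_disjoint_iff] at h
      obtain ⟨x, hx, hx'⟩ := h
      rw [connectedComponentIn_eq hx']
      exact hS.subset_connectedComponentIn hx hSF
  rcases hFF with rfl | hd
  · rcases key _ isPreconnected_connectedComponentIn hEs with h | h
    · exact Or.inl h
    · exact Or.inr (Or.inr (Or.inl h))
  · by_cases hFE : Disjoint F' (connectedComponentIn Fᶜ y)
    · rcases key _ isPreconnected_connectedComponentIn
        (fun x hx hx' => disjoint_left.1 hFE hx' hx) with h | h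
      · exact Or.inl h
      · exact Or.inr (Or.inr (Or.inl h))
    · have h1 : F' ⊆ connectedComponentIn Fᶜ y := by
        rw [not_disjoint_iff] at hFE
        obtain ⟨x, hx, hx'⟩ := hFE
        rw [connectedComponentIn_eq hx']
        exact hFc'.subset_connectedComponentIn hx
          (fun z hz hz' => disjoint_left.1 hd hz' hz)
      have h2 := compl_comp hF hFc hFn y
      rcases key _ h2 (compl_subset_compl.2 h1) with h | h
      · refine Or.inr (Or.inr (Or.inr ?_))
        rw [eq_univ_iff_forall]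
        intro x
        by_cases hx : x ∈ connectedComponentIn Fᶜ y
        · exact Or.inl hx
        · exact Or.inr (h hx)
      · refine Or.inr (Or.inl ?_)
        intro x hx
        by_contra hx'
        exact disjoint_left.1 h hx' hx

end nested

section median

variable {Y : Type*} [TopologicalSpace Y] [CompactSpace Y] [ConnectedSpace Y]
variable {X : Type*} [TopologicalSpace X]

/-- `E` contains at most one of the three points. -/
def Small (E : Set Y) (y : Y × Y × Y) : Prop :=
  (y.1 ∉ E ∧ y.2.1 ∉ E) ∨ (y.1 ∉ E ∧ y.2.2 ∉ E) ∨ (y.2.1 ∉ E ∧ y.2.2 ∉ E)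

/-- The points which are in none of the sets with at most one of the three points. -/
def MS (H : Set (Set Y)) (y : Y × Y × Y) : Set Y := {s | ∀ E ∈ H, Small E y → s ∉ E}

/-- Nested open sets. -/
structure Nest (H : Set (Set Y)) (f : Y → X) : Prop where
  op : ∀ E ∈ H, IsOpen E
  ne : ∀ E ∈ H, ∀ E' ∈ H, E ⊆ E' ∨ E' ⊆ E ∨ Disjoint E E' ∨ E ∪ E' = univ
  sep : ∀ s s', f s ≠ f s' → ∃ E ∈ H, ∃ E' ∈ H, s ∈ E ∧ s' ∈ E' ∧ Disjoint E E'

lemma small_ne_univ {E E' : Set Y} {y : Y × Y × Y} (h : Small E y) (h' : Small E' y) :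
    E ∪ E' ≠ univ := by
  intro hu
  have h1 : y.1 ∈ E ∪ E' := by rw [hu]; trivial
  have h2 : y.2.1 ∈ E ∪ E' := by rw [hu]; trivial
  have h3 : y.2.2 ∈ E ∪ E' := by rw [hu]; trivial
  unfold Small at h h'
  simp only [mem_union] at h1 h2 h3
  tauto

lemma MS_nonempty {H : Set (Set Y)} {f : Y → X} (hH : Nest H f) (y : Y × Y × Y) :
    (MS H y).Nonempty := by
  classical
  by_contra hcon
  rw [not_nonempty_iff_eq_empty] at hcon
  have hcov : (univ : Set Y) ⊆ ⋃₀ {E ∈ H | Small E y} := by
    intro s _
    by_contra hs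
    have : s ∈ MS H y := by
      intro E hE hsm hsE
      exact hs ⟨E, ⟨hE, hsm⟩, hsE⟩
    rw [hcon] at this
    exact this
  obtain ⟨T, hT, hTf, hTc⟩ : ∃ T : Set (Set Y), T ⊆ {E ∈ H | Small E y} ∧ T.Finite ∧
      univ ⊆ ⋃₀ T := by
    rw [sUnion_eq_biUnion] at hcov
    obtain ⟨T, h1, h2, h3⟩ := isCompact_univ.elim_finite_subcover_image
      (c := fun E : Set Y => E) (fun E hE => hH.op E hE.1) hcov
    exact ⟨T, h1, h2, by rwa [sUnion_eq_biUnion]⟩
  obtain ⟨E0, hE0, hyE0⟩ := hTc (mem_univ y.1)
  have hfin : {E ∈ T | y.1 ∈ E}.Finite := hTf.subset (sep_subset _ _)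
  obtain ⟨E, hEmax⟩ := hfin.exists_maximal ⟨E0, hE0, hyE0⟩
  have hET : E ∈ T := hEmax.prop.1
  have hyE : y.1 ∈ E := hEmax.prop.2
  have hEH := (hT hET).1
  have hEs := (hT hET).2
  have hEne : E ≠ univ := by
    intro h
    exact small_ne_univ hEs hEs (by rw [union_self, h])
  have hfr : (frontier E).Nonempty := nonempty_frontier_iff.2 ⟨⟨_, hyE⟩, hEne⟩
  obtain ⟨z, hz⟩ := hfr
  rw [(hH.op E hEH).frontier_eq] at hz
  obtain ⟨E', hE', hzE'⟩ := hTc (mem_univ z)
  have hE'H := (hT hE').1
  have hE's := (hT hE').2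
  obtain ⟨w, hw1, hw2⟩ := mem_closure_iff.1 hz.1 _ (hH.op E' hE'H) hzE'
  rcases hH.ne E hEH E' hE'H with h | h | h | h
  · have h1 : E' ≤ E := hEmax.le_of_ge ⟨hE', h hyE⟩ h
    exact hz.2 (h1 hzE')
  · exact hz.2 (h hzE')
  · exact disjoint_left.1 h hw2 hw1
  · exact small_ne_univ hEs hE's h

lemma MS_const {H : Set (Set Y)} {f : Y → X} (hH : Nest H f) {y : Y × Y × Y} {s s' : Y}
    (hs : s ∈ MS H y) (hs' : s' ∈ MS H y) : f s = f s' := by
  by_contra hne
  obtain ⟨E, hE, E', hE', h1, h2, h3⟩ := hH.sep s s' hne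
  have h4 : ¬ Small E y := fun h => hs E hE h h1
  have h5 : ¬ Small E' y := fun h => hs' E' hE' h h2
  have d1 : ¬ (y.1 ∈ E ∧ y.1 ∈ E') := fun h => disjoint_left.1 h3 h.1 h.2
  have d2 : ¬ (y.2.1 ∈ E ∧ y.2.1 ∈ E') := fun h => disjoint_left.1 h3 h.1 h.2
  have d3 : ¬ (y.2.2 ∈ E ∧ y.2.2 ∈ E') := fun h => disjoint_left.1 h3 h.1 h.2
  unfold Small at h4 h5
  tauto

/-- The median map. -/
noncomputable def med (H : Set (Set Y)) {f : Y → X} (hH : Nest H f) (y : Y × Y × Y) : X :=
  f (MS_nonempty hH y).some

lemma med_eq {H : Set (Set Y)} {f : Y → X} (hH : Nest H f) {y : Y × Y × Y} {s : Y}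
    (hs : s ∈ MS H y) : med H hH y = f s :=
  MS_const hH (MS_nonempty hH y).some_mem hs

lemma med_mem {H : Set (Set Y)} {f : Y → X} (hH : Nest H f) (y : Y × Y × Y) :
    med H hH y ∈ range f := ⟨_, rfl⟩

lemma continuous_med {H : Set (Set Y)} {f : Y → X} (hf : Continuous f) (hH : Nest H f) :
    Continuous (med H hH) := by
  rw [continuous_iff_continuousAt]
  intro y
  rw [ContinuousAt, tendsto_nhds]
  intro O hO hyO
  let s := (MS_nonempty hH y).some
  have hs : s ∈ MS H y := (MS_nonempty hH y).some_mem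
  have hsO : f s ∈ O := hyO
  have hK : IsCompact (f ⁻¹' Oᶜ) := (hO.isClosed_compl.preimage hf).isCompact
  have key : ∀ᶠ y' in 𝓝 y, ∀ s' ∈ MS H y', s' ∉ f ⁻¹' Oᶜ := by
    refine IsCompact.induction_on hK (p := fun S => ∀ᶠ y' in 𝓝 y, ∀ s' ∈ MS H y', s' ∉ S)
      ?_ ?_ ?_ ?_
    · exact Eventually.of_forall fun _ _ _ => notMem_empty _
    · intro S T hST h
      filter_upwards [h] with y' h' s' hs' hs''
      exact h' s' hs' (hST hs'')
    · intro S T h1 h2
      filter_upwards [h1, h2] with y' h1' h2' s' hs' hs''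
      rcases hs'' with h | h
      · exact h1' s' hs' h
      · exact h2' s' hs' h
    · intro k hk
      have hne : f k ≠ f s := by
        intro h
        apply hk
        rw [h]
        exact hsO
      obtain ⟨E, hE, E', hE', h1, h2, h3⟩ := hH.sep k s hne
      refine ⟨E, mem_nhdsWithin_of_mem_nhds ((hH.op E hE).mem_nhds h1), ?_⟩
      have h4 : ¬ Small E' y := fun h => hs E' hE' h h2
      have h5 : ∀ᶠ y' in 𝓝 y, ¬ Small E' y' := by
        have c1 : Continuous fun y : Y × Y × Y => y.1 := continuous_fst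
        have c2 : Continuous fun y : Y × Y × Y => y.2.1 := by fun_prop
        have c3 : Continuous fun y : Y × Y × Y => y.2.2 := by fun_prop
        have hop := hH.op E' hE'
        have n1 : y.1 ∈ E' → ∀ᶠ y' : Y × Y × Y in 𝓝 y, y'.1 ∈ E' := fun h =>
          c1.continuousAt.eventually (hop.mem_nhds h)
        have n2 : y.2.1 ∈ E' → ∀ᶠ y' : Y × Y × Y in 𝓝 y, y'.2.1 ∈ E' := fun h =>
          c2.continuousAt.eventually (hop.mem_nhds h)
        have n3 : y.2.2 ∈ E' → ∀ᶠ y' : Y × Y × Y in 𝓝 y, y'.2.2 ∈ E' := fun h =>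
          c3.continuousAt.eventually (hop.mem_nhds h)
        by_cases g1 : y.1 ∈ E'
        · by_cases g2 : y.2.1 ∈ E'
          · filter_upwards [n1 g1, n2 g2] with y' a b hsm
            unfold Small at hsm
            tauto
          · by_cases g3 : y.2.2 ∈ E'
            · filter_upwards [n1 g1, n3 g3] with y' a b hsm
              unfold Small at hsm
              tauto
            · exact absurd (Or.inr (Or.inr ⟨g2, g3⟩)) h4
        · by_cases g2 : y.2.1 ∈ E'
          · by_cases g3 : y.2.2 ∈ E'
            · filter_upwards [n2 g2, n3 g3] with y' a b hsm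
              unfold Small at hsm
              tauto
            · exact absurd (Or.inr (Or.inl ⟨g1, g3⟩)) h4
          · exact absurd (Or.inl ⟨g1, g2⟩) h4
      filter_upwards [h5] with y' hy' s' hs' hs'E
      have h6 : ¬ Small E y' := fun h => hs' E hE h hs'E
      have d1 : ¬ (y'.1 ∈ E ∧ y'.1 ∈ E') := fun h => disjoint_left.1 h3 h.1 h.2
      have d2 : ¬ (y'.2.1 ∈ E ∧ y'.2.1 ∈ E') := fun h => disjoint_left.1 h3 h.1 h.2
      have d3 : ¬ (y'.2.2 ∈ E ∧ y'.2.2 ∈ E') := fun h => disjoint_left.1 h3 h.1 h.2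
      unfold Small at h6 hy'
      tauto
  filter_upwards [key] with y' hy'
  have := hy' _ (MS_nonempty hH y').some_mem
  by_contra h
  exact this h

lemma med_left {H : Set (Set Y)} {f : Y → X} (hH : Nest H f) (a b : Y) :
    med H hH (a, a, b) = f a := by
  apply med_eq
  intro E _ h
  unfold Small at h
  simp only at h
  tauto

lemma med_right {H : Set (Set Y)} {f : Y → X} (hH : Nest H f) (a b : Y) :
    med H hH (a, b, b) = f b := by
  apply med_eq
  intro E _ h
  unfold Small at h
  simp only at h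
  tauto

lemma med_out {H : Set (Set Y)} {f : Y → X} (hH : Nest H f) (a b : Y) :
    med H hH (a, b, a) = f a := by
  apply med_eq
  intro E _ h
  unfold Small at h
  simp only at h
  tauto

lemma med_bd {H : Set (Set Y)} {f : Y → X} (hH : Nest H f) {a b : Y} (c : Y)
    (hab : ∀ E ∈ H, a ∈ E → b ∈ E) : med H hH (a, b, c) = f a := by
  apply med_eq
  intro E hE h ha
  have := hab E hE ha
  unfold Small at h
  simp only at h
  tauto

end median

section main

lemma closed_comp {Y : Type*} [TopologicalSpace Y] {A : Set Y} (hA : IsClosed A) (a : Y) :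
    IsClosed (connectedComponentIn A a) := by
  by_cases ha : a ∈ A
  · rw [← closure_subset_iff_isClosed]
    refine isPreconnected_connectedComponentIn.closure.subset_connectedComponentIn
      (subset_closure (mem_connectedComponentIn ha)) ?_
    exact closure_minimal (connectedComponentIn_subset _ _) hA
  · rw [connectedComponentIn_eq_empty ha]
    exact isClosed_empty

lemma comp_val {Y X : Type*} [TopologicalSpace Y] {f : Y → X} {p : X} {a x : Y}
    (h : x ∈ connectedComponentIn (f ⁻¹' {p}) a) : f x = p :=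
  (connectedComponentIn_subset (f ⁻¹' {p}) a h : x ∈ f ⁻¹' {p})

variable {Y : Type*} [TopologicalSpace Y] [CompactSpace Y] [T2Space Y] [SimplyConnectedSpace Y]
  [LocallyPathConnectedSpace Y]
variable {X : Type*} [TopologicalSpace X] [T2Space X]

/-- The halfspaces of a map. -/
def HS (Z : Set X) (x0 : X) (f : Y → X) : Set (Set Y) :=
  {E | ∃ p, p ∉ Z ∧ p ≠ x0 ∧ ∃ a, f a = p ∧ ∃ y,
    E = connectedComponentIn (connectedComponentIn (f ⁻¹' {p}) a)ᶜ y}

theorem nest_HS {Z : Set X} (hZ : PathFree Z) (hR : RimFin Z) (x0 : X) {f : Y → X}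
    (hf : Continuous f) : Nest (HS Z x0 f) f where
  op := by
    rintro E ⟨p, _, _, a, _, y, rfl⟩
    have : IsClosed (connectedComponentIn (f ⁻¹' {p}) a) :=
      closed_comp (isClosed_singleton.preimage hf) _
    exact this.isOpen_compl.connectedComponentIn
  ne := by
    rintro E ⟨p, _, _, a, ha, y, rfl⟩ E' ⟨p', _, _, a', ha', y', rfl⟩
    have hcl : ∀ (p : X) (a : Y), IsClosed (connectedComponentIn (f ⁻¹' {p}) a) := fun p a =>
      closed_comp (isClosed_singleton.preimage hf) _
    refine nested (hcl p a) isPreconnected_connectedComponentIn ⟨a, mem_connectedComponentIn ha⟩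
      (hcl p' a') isPreconnected_connectedComponentIn ⟨a', mem_connectedComponentIn ha'⟩ ?_ y y'
    by_cases hd : Disjoint (connectedComponentIn (f ⁻¹' {p}) a)
        (connectedComponentIn (f ⁻¹' {p'}) a')
    · exact Or.inr hd
    · left
      rw [not_disjoint_iff] at hd
      obtain ⟨x, hx, hx'⟩ := hd
      have e1 : f x = p := comp_val hx
      have e2 : f x = p' := comp_val hx'
      have e3 : p = p' := e1.symm.trans e2
      subst e3
      rw [connectedComponentIn_eq hx, connectedComponentIn_eq hx']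
  sep := by
    intro s s' hss
    obtain ⟨p, hpZ, hpx, hps, hps', a, ha, hj⟩ := sep hZ hR hf (finite_singleton x0) hss
    have hF : IsClosed (connectedComponentIn (f ⁻¹' {p}) a) :=
      closed_comp (isClosed_singleton.preimage hf) _
    have hsF : s ∈ (connectedComponentIn (f ⁻¹' {p}) a)ᶜ := by
      intro h
      have : f s = p := comp_val h
      exact hps this.symm
    have hsF' : s' ∈ (connectedComponentIn (f ⁻¹' {p}) a)ᶜ := by
      intro h
      have : f s' = p := comp_val h
      exact hps' this.symm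
    refine ⟨_, ⟨p, hpZ, hpx, a, ha, s, rfl⟩, _, ⟨p, hpZ, hpx, a, ha, s', rfl⟩,
      mem_connectedComponentIn hsF, mem_connectedComponentIn hsF', ?_⟩
    by_contra hd
    rw [not_disjoint_iff] at hd
    obtain ⟨x, hx, hx'⟩ := hd
    have h1 : s' ∈ connectedComponentIn (connectedComponentIn (f ⁻¹' {p}) a)ᶜ s := by
      rw [connectedComponentIn_eq hx, ← connectedComponentIn_eq hx']
      exact mem_connectedComponentIn hsF'
    have hc : IsConnected (connectedComponentIn (connectedComponentIn (f ⁻¹' {p}) a)ᶜ s) :=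
      isConnected_connectedComponentIn_iff.2 hsF
    have hp := (hF.isOpen_compl.connectedComponentIn).isConnected_iff_isPathConnected.1 hc
    exact hj ((hp.joinedIn s (mem_connectedComponentIn hsF) s' h1).mono
      (connectedComponentIn_subset _ _))

/-- The median map of `f : Y → X`, with values in the range of `f`. -/
theorem exists_med {Z : Set X} (hZ : PathFree Z) (hR : RimFin Z) {f : Y → X}
    (hf : Continuous f) (y0 : Y) : ∃ m : Y × Y × Y → X, Continuous m ∧
      (∀ y, m y ∈ range f) ∧ (∀ b, m (y0, b, y0) = f y0) ∧ (∀ b, m (y0, b, b) = f b) ∧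
      ∀ (L : Set Y), IsPreconnected L → y0 ∈ L → (∀ y ∈ L, f y = f y0) →
        ∀ b ∈ L, ∀ c, m (y0, b, c) = f y0 := by
  have hH := nest_HS hZ hR (f y0) hf
  refine ⟨med _ hH, continuous_med hf hH, med_mem hH, med_out hH y0, med_right hH y0, ?_⟩
  intro L hL hy0 hLf b hb c
  refine med_bd hH c ?_
  rintro E ⟨p, hpZ, hpx, a, ha, y, rfl⟩ h0
  rw [connectedComponentIn_eq h0]
  refine hL.subset_connectedComponentIn hy0 ?_ hb
  intro z hz hz'
  have h1 : f z = p := comp_val hz'
  rw [hLf z hz] at h1
  exact hpx h1.symm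

end main

end Pool.Agent.Helper49K9.PC
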