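import Pool.Agent.Helper49K9.PC.Uni

set_option autoImplicit false

/-!
Separation of points with different images, for maps into spaces which are rim-finite outside of a
closed set without nonconstant paths.
-/

open Set Topology Filter unitInterval

namespace Pool.Agent.Helper49K9.PC

/-- `Z` contains no nonconstant path. -/
def PathFree {X : Type*} [TopologicalSpace X] (Z : Set X) : Prop :=
  ∀ p : C(I, X), (∀ t, p t ∈ Z) → p 0 = p 1

/-- The points outside of `Z` have small neighbourhoods with a finite boundary. -/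
def RimFin {X : Type*} [TopologicalSpace X] (Z : Set X) : Prop :=
  ∀ x, x ∉ Z → ∀ W ∈ 𝓝 x, ∀ Q : Set X, Q.Finite →
    ∃ V : Set X, IsOpen V ∧ x ∈ V ∧ V ⊆ W ∧ ∃ K : Set X, K.Finite ∧ Disjoint K Z ∧
      Disjoint K Q ∧ frontier V ⊆ K

/-- A connected set which misses the frontier of an open set is inside or outside. -/
lemma subset_of_frontier {Y : Type*} [TopologicalSpace Y] {S V : Set Y} (hS : IsPreconnected S)
    (hV : IsOpen V) (hd : Disjoint S (frontier V)) {x : Y} (hx : x ∈ S) (hxV : x ∈ V) : S ⊆ V := by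
  have h1 : S ⊆ V ∪ (closure V)ᶜ := by
    intro y hy
    by_cases h : y ∈ closure V
    · left
      by_contra h2
      refine disjoint_left.1 hd hy ?_
      rw [hV.frontier_eq]
      exact ⟨h, h2⟩
    · exact Or.inr h
  have h2 : Disjoint V (closure V)ᶜ := by
    rw [disjoint_compl_right_iff_subset]
    exact subset_closure
  rcases hS.subset_or_subset hV isClosed_closure.isOpen_compl h2 h1 with h | h
  · exact h
  · exact absurd (subset_closure hxV) (h hx)

/-- Closing the gaps of a closed set: a function on `[0,1]` with equal values at the two ends of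
every gap of a closed set `R` is turned into a path. -/
lemma close_gaps {X : Type*} [TopologicalSpace X] {Z : Set X} (hZ : PathFree Z) {g : I → X}
    (hg : Continuous g) {R : Set I} (hR : IsClosed R) (h0 : (0 : I) ∈ R) (h1 : (1 : I) ∈ R)
    (hRZ : ∀ r ∈ R, g r ∈ Z)
    (hgap : ∀ r ∈ R, ∀ r' ∈ R, r < r' → (∀ x, r < x → x < r' → x ∉ R) → g r = g r') :
    g 0 = g 1 := by
  classical
  let ρ : I → I := fun x => sSup (R ∩ Iic x)
  let sg : I → I := fun x => sInf (R ∩ Ici x)
  have hρR : ∀ x, ρ x ∈ R ∩ Iic x := fun x =>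
    (hR.inter isClosed_Iic).csSup_mem ⟨0, h0, unitInterval.nonneg'⟩ (OrderTop.bddAbove _)
  have hsgR : ∀ x, sg x ∈ R ∩ Ici x := fun x =>
    (hR.inter isClosed_Ici).csInf_mem ⟨1, h1, unitInterval.le_one'⟩ (OrderBot.bddBelow _)
  have hρge : ∀ x, ∀ r ∈ R, r ≤ x → r ≤ ρ x := fun x r hr hrx => le_sSup ⟨hr, hrx⟩
  have hsgle : ∀ x, ∀ r ∈ R, x ≤ r → sg x ≤ r := fun x r hr hrx => sInf_le ⟨hr, hrx⟩
  have hρsg : ∀ x, g (ρ x) = g (sg x) := by
    intro x
    by_cases hx : x ∈ R
    · have e1 : ρ x = x := le_antisymm (hρR x).2 (hρge x x hx le_rfl)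
      have e2 : sg x = x := le_antisymm (hsgle x x hx le_rfl) (hsgR x).2
      rw [e1, e2]
    · have e1 : ρ x < x := lt_of_le_of_ne (hρR x).2 (fun h => hx (h ▸ (hρR x).1))
      have e2 : x < sg x := lt_of_le_of_ne (hsgR x).2 (fun h => hx (h ▸ (hsgR x).1))
      refine hgap _ (hρR x).1 _ (hsgR x).1 (e1.trans e2) ?_
      intro y hy1 hy2 hyR
      rcases le_total y x with h | h
      · exact not_lt.2 (hρge x y hyR h) hy1
      · exact not_lt.2 (hsgle x y hyR h) hy2
  have hcont : Continuous fun x => g (ρ x) := by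
    rw [continuous_iff_continuousAt]
    intro x
    by_cases hx : x ∈ R
    · have e1 : ρ x = x := le_antisymm (hρR x).2 (hρge x x hx le_rfl)
      show Tendsto (fun x => g (ρ x)) (𝓝 x) (𝓝 (g (ρ x)))
      rw [e1]
      intro O hO
      have h2 : g ⁻¹' O ∈ 𝓝 x := hg.continuousAt hO
      obtain ⟨δ, hδ, hball⟩ := Metric.mem_nhds_iff.1 h2
      refine Metric.mem_nhds_iff.2 ⟨δ, hδ, ?_⟩
      intro y hy
      rw [Metric.mem_ball, Subtype.dist_eq, Real.dist_eq] at hy
      rcases le_total x y with h | h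
      · refine hball ?_
        rw [Metric.mem_ball, Subtype.dist_eq, Real.dist_eq]
        have h3 : (x : ℝ) ≤ ρ y := hρge y x hx h
        have h4 : (ρ y : ℝ) ≤ y := (hρR y).2
        rw [abs_of_nonneg (by linarith)]
        rw [abs_of_nonneg (by linarith)] at hy
        linarith
      · have h5 : g (sg y) ∈ O := by
          refine hball ?_
          rw [Metric.mem_ball, Subtype.dist_eq, Real.dist_eq]
          have h3 : (sg y : ℝ) ≤ x := hsgle y x hx h
          have h4 : (y : ℝ) ≤ sg y := (hsgR y).2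
          rw [abs_of_nonpos (by linarith)]
          rw [abs_of_nonpos (by linarith)] at hy
          linarith
        show g (ρ y) ∈ O
        rw [hρsg y]
        exact h5
    · have e1 : ρ x < x := lt_of_le_of_ne (hρR x).2 (fun h => hx (h ▸ (hρR x).1))
      have e2 : x < sg x := lt_of_le_of_ne (hsgR x).2 (fun h => hx (h ▸ (hsgR x).1))
      have h3 : (fun y => g (ρ y)) =ᶠ[𝓝 x] fun _ => g (ρ x) := by
        filter_upwards [Ioo_mem_nhds e1 e2] with y hy
        congr 1
        apply le_antisymm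
        · have h4 := hρR y
          by_contra h5
          rw [not_le] at h5
          rcases le_total (ρ y) x with h6 | h6
          · exact not_lt.2 (hρge x _ h4.1 h6) h5
          · exact absurd (hsgle x _ h4.1 h6) (not_le.2 (lt_of_le_of_lt h4.2 hy.2))
        · exact hρge y _ (hρR x).1 hy.1.le
      exact (continuousAt_const.congr h3.symm)
  have e0 : ρ 0 = 0 := le_antisymm (hρR 0).2 unitInterval.nonneg'
  have e1 : ρ 1 = 1 := le_antisymm (hρR 1).2 (hρge 1 1 h1 le_rfl)
  have := hZ ⟨fun x => g (ρ x), hcont⟩ (fun t => hRZ _ (hρR t).1)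
  simp only [ContinuousMap.coe_mk, e0, e1] at this
  exact this

variable {Y : Type*} [TopologicalSpace Y] [CompactSpace Y] [T2Space Y] [SimplyConnectedSpace Y]
  [LocallyPathConnectedSpace Y]
variable {X : Type*} [TopologicalSpace X] [T2Space X]

/-- Points with different images are separated by a component of a fibre over a point outside
of `Z`. -/
theorem sep {Z : Set X} (hZ : PathFree Z) (hR : RimFin Z) {f : Y → X} (hf : Continuous f)
    {Q0 : Set X} (hQ0 : Q0.Finite) {s s' : Y} (hss : f s ≠ f s') :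
    ∃ p, p ∉ Z ∧ p ∉ Q0 ∧ p ≠ f s ∧ p ≠ f s' ∧ ∃ a, f a = p ∧
      ¬ JoinedIn (connectedComponentIn (f ⁻¹' {p}) a)ᶜ s s' := by
  classical
  by_contra hcon
  push Not at hcon
  let Q : Set X := Q0 ∪ {f s, f s'}
  have hQ : Q.Finite := hQ0.union (by simp)
  let Good : Set (Set X) := {K | K.Finite ∧ Disjoint K Z ∧ Disjoint K Q}
  have hjoin : ∀ K ∈ Good, JoinedIn (f ⁻¹' K)ᶜ s s' := by
    rintro K ⟨hK1, hK2, hK3⟩
    refine lemFin hf hK1 ?_
    intro p hp
    have h1 : p ∉ Z := disjoint_left.1 hK2 hp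
    have h2 : p ∉ Q := disjoint_left.1 hK3 hp
    refine lemK (isClosed_singleton.preimage hf) ?_
    intro a ha
    refine hcon p h1 (fun h => h2 (Or.inl h)) (fun h => h2 (Or.inr (Or.inl h)))
      (fun h => h2 (Or.inr (Or.inr h))) a ha
  let D : Set X → Set Y := fun K => connectedComponentIn (f ⁻¹' K)ᶜ s
  have hDc : ∀ K, IsPreconnected (D K) := fun K => isPreconnected_connectedComponentIn
  have hOo : ∀ K ∈ Good, IsOpen (f ⁻¹' K)ᶜ := fun K hK => (hK.1.isClosed.preimage hf).isOpen_compl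
  have hDo : ∀ K ∈ Good, IsOpen (D K) := fun K hK => (hOo K hK).connectedComponentIn
  have hsD : ∀ K ∈ Good, s ∈ D K := fun K hK =>
    mem_connectedComponentIn (hjoin K hK).source_mem
  have hDsub : ∀ K, D K ⊆ (f ⁻¹' K)ᶜ := fun K => connectedComponentIn_subset _ _
  have hs'D : ∀ K ∈ Good, s' ∈ D K := by
    intro K hK
    obtain ⟨γ, hγ⟩ := hjoin K hK
    have h1 : IsPreconnected (range γ) := isPreconnected_range γ.continuous
    refine h1.subset_connectedComponentIn ⟨0, γ.source⟩ ?_ ⟨1, γ.target⟩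
    rintro _ ⟨t, rfl⟩
    exact hγ t
  have hfrD : ∀ K ∈ Good, frontier (D K) ⊆ f ⁻¹' K := by
    intro K hK
    have := frontier_comp (hOo K hK) s
    rwa [compl_compl] at this
  -- the component and a small neighbourhood with boundary in `K`
  have hVD : ∀ K ∈ Good, ∀ V : Set X, IsOpen V → frontier V ⊆ K → ∀ y ∈ D K, f y ∈ V →
      f '' (D K) ⊆ V := by
    intro K hK V hV hVK y hy hyV
    refine subset_of_frontier ((hDc K).image f hf.continuousOn) hV ?_ ⟨y, hy, rfl⟩ hyV
    rw [disjoint_left]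
    rintro _ ⟨z, hz, rfl⟩ hz2
    exact hDsub K hz (hVK hz2)
  -- `f s` is in `Z`
  have hsZ : f s ∈ Z := by
    by_contra hsZ
    have hW : {f s'}ᶜ ∈ 𝓝 (f s) := isOpen_compl_singleton.mem_nhds hss
    obtain ⟨V, hV, hsV, hVW, K, hK1, hK2, hK3, hK4⟩ := hR (f s) hsZ _ hW Q hQ
    have hK : K ∈ Good := ⟨hK1, hK2, hK3⟩
    have h1 := hVD K hK V hV hK4 s (hsD K hK) hsV
    exact hVW (h1 ⟨s', hs'D K hK, rfl⟩) rfl
  -- a point whose image is not in `Z` is far from some `D K`
  have hfar : ∀ y, f y ∉ Z → ∃ K ∈ Good, y ∉ closure (D K) := by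
    intro y hy
    have hne : f y ≠ f s := fun h => hy (h ▸ hsZ)
    have hW : {f s}ᶜ ∈ 𝓝 (f y) := isOpen_compl_singleton.mem_nhds hne
    obtain ⟨V, hV, hyV, hVW, K, hK1, hK2, hK3, hK4⟩ := hR (f y) hy _ hW Q hQ
    have hK : K ∈ Good := ⟨hK1, hK2, hK3⟩
    refine ⟨K, hK, fun hcl => ?_⟩
    obtain ⟨z, hz1, hz2⟩ := mem_closure_iff.1 hcl _ (hV.preimage hf) hyV
    have h1 := hVD K hK V hV hK4 z hz2 hz1
    exact hVW (h1 ⟨s, hsD K hK, rfl⟩) rfl
  have hfar2 : ∀ y, (∃ K ∈ Good, y ∉ D K) → ∃ K ∈ Good, y ∉ closure (D K) := by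
    rintro y ⟨K, hK, hy⟩
    by_cases h : y ∈ closure (D K)
    · have h1 : y ∈ frontier (D K) := by
        rw [(hDo K hK).frontier_eq]
        exact ⟨h, hy⟩
      have h2 : f y ∈ K := hfrD K hK h1
      exact hfar y (disjoint_left.1 hK.2.1 h2)
    · exact ⟨K, hK, h⟩
  obtain ⟨γ⟩ := PathConnectedSpace.joined s s'
  let R : Set I := {r | ∀ K ∈ Good, γ r ∈ D K}
  have hRcl : IsClosed R := by
    rw [← isOpen_compl_iff, isOpen_iff_mem_nhds]
    intro r hr
    have h1 : ∃ K ∈ Good, γ r ∉ D K := by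
      by_contra h
      push Not at h
      exact hr h
    obtain ⟨K, hK, hrK⟩ := hfar2 _ h1
    have h2 : γ ⁻¹' (closure (D K))ᶜ ∈ 𝓝 r :=
      (isClosed_closure.isOpen_compl.preimage γ.continuous).mem_nhds hrK
    filter_upwards [h2] with x hx hxR
    exact hx (subset_closure (hxR K hK))
  have hmono : ∀ K K', K ⊆ K' → K' ∈ Good → D K' ⊆ D K := by
    intro K K' hKK hK'
    refine (hDc K').subset_connectedComponentIn (hsD K' hK') ?_
    exact (hDsub K').trans (compl_subset_compl.2 (preimage_mono hKK))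
  have hunion : ∀ K ∈ Good, ∀ K' ∈ Good, K ∪ K' ∈ Good := by
    rintro K ⟨a1, a2, a3⟩ K' ⟨b1, b2, b3⟩
    exact ⟨a1.union b1, a2.union_left b2, a3.union_left b3⟩
  refine hss ?_
  have hfin := close_gaps hZ (g := fun t => f (γ t)) (hf.comp γ.continuous) hRcl
    (R := R) ?_ ?_ ?_ ?_
  · simpa using hfin
  · intro K hK
    rw [γ.source]
    exact hsD K hK
  · intro K hK
    rw [γ.target]
    exact hs'D K hK
  · intro r hr
    by_contra h
    obtain ⟨K, hK, h1⟩ := hfar _ h
    exact h1 (subset_closure (hr K hK))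
  · intro r hr r' hr' hrr hgap
    by_contra hne
    obtain ⟨O, O', hO, hO', hrO, hrO', hOO⟩ := t2_separation hne
    have hg : Continuous fun t => f (γ t) := hf.comp γ.continuous
    -- choose `u` near `r`
    obtain ⟨u, hu1, hu2⟩ := exists_Ico_subset_of_mem_nhds
      ((hO.preimage hg).mem_nhds hrO) ⟨r', hrr⟩
    obtain ⟨v, hv1, hv2⟩ := exists_Ioc_subset_of_mem_nhds
      ((hO'.preimage hg).mem_nhds hrO') ⟨r, hrr⟩
    obtain ⟨u1, hu1a, hu1b⟩ := exists_between (lt_min hu1 hrr)
    obtain ⟨v1, hv1a, hv1b⟩ := exists_between (max_lt hv1 (lt_of_lt_of_le hu1b (min_le_right _ _)))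
    have hur : r < u1 := hu1a
    have huv : u1 < v1 := lt_of_le_of_lt (le_max_right _ _) hv1a
    have hvr : v1 < r' := hv1b
    have huO : ∀ x, r ≤ x → x ≤ u1 → f (γ x) ∈ O := fun x h1 h2 =>
      hu2 ⟨h1, lt_of_le_of_lt h2 (lt_of_lt_of_le hu1b (min_le_left _ _))⟩
    have hvO : ∀ x, v1 ≤ x → x ≤ r' → f (γ x) ∈ O' := fun x h1 h2 =>
      hv2 ⟨lt_of_le_of_lt (le_max_left _ _) (lt_of_lt_of_le hv1a h1), h2⟩
    -- one `K` for the middle
    obtain ⟨K, hK, hKmid⟩ : ∃ K ∈ Good, ∀ x ∈ Icc u1 v1, γ x ∉ closure (D K) := by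
      refine IsCompact.induction_on (isCompact_Icc (a := u1) (b := v1))
        (p := fun S => ∃ K ∈ Good, ∀ x ∈ S, γ x ∉ closure (D K)) ?_ ?_ ?_ ?_
      · exact ⟨∅, ⟨finite_empty, empty_disjoint _, empty_disjoint _⟩, by simp⟩
      · rintro S T hST ⟨K, hK, h⟩
        exact ⟨K, hK, fun x hx => h x (hST hx)⟩
      · rintro S T ⟨K, hK, h⟩ ⟨K', hK', h'⟩
        have hU := hunion K hK K' hK'
        refine ⟨K ∪ K', hU, ?_⟩
        rintro x (hx | hx)
        · exact fun hc => h x hx (closure_mono (hmono _ _ subset_union_left hU) hc)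
        · exact fun hc => h' x hx (closure_mono (hmono _ _ subset_union_right hU) hc)
      · intro x hx
        have hxR : x ∉ R := hgap x (lt_of_lt_of_le hur hx.1) (lt_of_le_of_lt hx.2 hvr)
        have h1 : ∃ K ∈ Good, γ x ∉ D K := by
          by_contra h
          push Not at h
          exact hxR h
        obtain ⟨K, hK, hxK⟩ := hfar2 _ h1
        refine ⟨γ ⁻¹' (closure (D K))ᶜ, mem_nhdsWithin_of_mem_nhds
          ((isClosed_closure.isOpen_compl.preimage γ.continuous).mem_nhds hxK), K, hK, ?_⟩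
        intro y hy
        exact hy
    have hclK : IsClosed {x : I | γ x ∈ closure (D K)} := isClosed_closure.preimage γ.continuous
    obtain ⟨a, ⟨⟨ha1, ha2⟩, ha3⟩, ha4⟩ := ((isCompact_Icc (a := r) (b := u1)).inter_right
      hclK).exists_isGreatest ⟨r, ⟨le_rfl, hur.le⟩, subset_closure (hr K hK)⟩
    obtain ⟨b, ⟨⟨hb1, hb2⟩, hb3⟩, hb4⟩ := ((isCompact_Icc (a := v1) (b := r')).inter_right
      hclK).exists_isLeast ⟨r', ⟨hvr.le, le_rfl⟩, subset_closure (hr' K hK)⟩
    have hab : a < b := lt_of_le_of_lt ha2 (lt_of_lt_of_le huv hb1)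
    have hmid : ∀ x, a < x → x < b → γ x ∉ closure (D K) := by
      intro x hx1 hx2 hx3
      rcases le_total x u1 with h | h
      · exact not_lt.2 (ha4 ⟨⟨ha1.trans hx1.le, h⟩, hx3⟩) hx1
      rcases le_total v1 x with h' | h'
      · exact not_lt.2 (hb4 ⟨⟨h', hx2.le.trans hb2⟩, hx3⟩) hx2
      · exact hKmid x ⟨h, h'⟩ hx3
    have haD : γ a ∉ D K := by
      intro h
      obtain ⟨w, hw1, hw2⟩ := exists_Ico_subset_of_mem_nhds
        (((hDo K hK).preimage γ.continuous).mem_nhds h) ⟨b, hab⟩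
      obtain ⟨z, hz1, hz2⟩ := exists_between (lt_min hw1 hab)
      exact hmid z hz1 (lt_of_lt_of_le hz2 (min_le_right _ _))
        (subset_closure (hw2 ⟨hz1.le, lt_of_lt_of_le hz2 (min_le_left _ _)⟩))
    have hbD : γ b ∉ D K := by
      intro h
      obtain ⟨w, hw1, hw2⟩ := exists_Ioc_subset_of_mem_nhds
        (((hDo K hK).preimage γ.continuous).mem_nhds h) ⟨a, hab⟩
      obtain ⟨z, hz1, hz2⟩ := exists_between (max_lt hw1 hab)
      exact hmid z (lt_of_le_of_lt (le_max_right _ _) hz1) hz2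
        (subset_closure (hw2 ⟨lt_of_le_of_lt (le_max_left _ _) hz1, hz2.le⟩))
    have hfa : f (γ a) ∈ K := hfrD K hK (by
      rw [(hDo K hK).frontier_eq]
      exact ⟨ha3, haD⟩)
    have hfb : f (γ b) ∈ K := hfrD K hK (by
      rw [(hDo K hK).frontier_eq]
      exact ⟨hb3, hbD⟩)
    have hneab : f (γ a) ≠ f (γ b) := by
      intro h
      refine disjoint_left.1 hOO (huO a ha1 ha2) ?_
      rw [h]
      exact hvO b hb1 hb2
    refine lemW (hDc K) (hDo K hK) (A := f ⁻¹' {f (γ a)}) (B := f ⁻¹' (K \ {f (γ a)}))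
      (C := γ '' Icc a b) (isClosed_singleton.preimage hf)
      ((hK.1.subset sdiff_subset).isClosed.preimage hf) ?_ ?_
      (isPreconnected_Icc.image _ γ.continuous.continuousOn) ?_
      ⟨a, ⟨le_rfl, hab.le⟩, rfl⟩ ha3 rfl ⟨b, ⟨hab.le, le_rfl⟩, rfl⟩ hb3
      ⟨hfb, fun h => hneab h.symm⟩
    · rw [disjoint_left]
      intro y hy hy'
      exact hy'.2 hy
    · intro y hy
      by_cases h : f y = f (γ a)
      · exact Or.inl h
      · exact Or.inr ⟨hfrD K hK hy, h⟩
    · rw [disjoint_left]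
      rintro _ ⟨x, hx, rfl⟩ hxD
      rcases hx.1.lt_or_eq with h | h
      · rcases hx.2.lt_or_eq with h' | h'
        · exact hmid x h h' (subset_closure hxD)
        · rw [h'] at hxD
          exact hbD hxD
      · rw [← h] at hxD
        exact haD hxD

end Pool.Agent.Helper49K9.PC
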