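import Pool.Agent.Helper49K9.PC.Dim
import Pool.Agent.Helper49K9.PC.Hom

set_option autoImplicit false

/-!
The Peano continuum obtained from `[0,1]` by gluing the Cantor set onto a countable power of the
pseudo-arc.
-/

open Set Topology Filter unitInterval Pool.Agent.Helper162.Arc TopologicalSpace

namespace Pool.Agent.Helper49K9.PC

/-- The power of the pseudo-arc. -/
abbrev ZZ : Type := ℕ → PA

/-- The Cantor set in the unit interval. -/
def CS : Set I := {t | (t : ℝ) ∈ cantorSet}

lemma isClosed_CS : IsClosed CS := isClosed_cantorSet.preimage continuous_subtype_val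

lemma zero_mem_CS : (0 : I) ∈ CS := zero_mem_cantorSet

lemma one_mem_CS : (1 : I) ∈ CS := by
  show (1 : ℝ) ∈ cantorSet
  unfold cantorSet
  rw [mem_iInter]
  intro n
  induction n with
  | zero => simp
  | succ n ih =>
    rw [preCantorSet_succ]
    exact Or.inr ⟨1, ih, by norm_num⟩

/-- The coordinates of a point of `ZZ`. -/
def io (z : ZZ) : ℕ → ℕ → ℝ := fun i j => ((z i).1 j : ℝ)

lemma continuous_io : Continuous io := by
  refine continuous_pi fun i => continuous_pi fun j => ?_
  exact continuous_subtype_val.comp ((continuous_apply j).comp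
    (continuous_subtype_val.comp (continuous_apply i)))

lemma io_inj : Function.Injective io := by
  intro z z' h
  funext i
  apply Subtype.ext
  funext j
  apply Subtype.ext
  exact congrFun (congrFun h i) j

lemma io_emb : IsClosedEmbedding io := continuous_io.isClosedEmbedding io_inj

lemma exists_theta : ∃ θ : C(CS, ZZ), Function.Surjective θ := by
  let _ : MetricSpace ZZ := TopologicalSpace.metrizableSpaceMetric ZZ
  have : Nonempty ZZ := ⟨fun _ => (inferInstance : Nonempty PA).some⟩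
  obtain ⟨q, hq, hqs⟩ := exists_nat_bool_continuous_surjective_of_compact ZZ
  let a : CS → cantorSet := fun t => ⟨(t.1 : ℝ), t.2⟩
  have ha : Continuous a :=
    Continuous.subtype_mk (continuous_subtype_val.comp continuous_subtype_val) _
  have has : Function.Surjective a := by
    intro c
    exact ⟨⟨⟨c.1, cantorSet_subset_unitInterval c.2⟩, c.2⟩, rfl⟩
  refine ⟨⟨fun t => q (cantorSetHomeomorphNatToBool (a t)),
    hq.comp (cantorSetHomeomorphNatToBool.continuous.comp ha)⟩, ?_⟩
  exact hqs.comp (cantorSetHomeomorphNatToBool.surjective.comp has)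

/-- The surjection of the Cantor set onto `ZZ`. -/
noncomputable def th : C(CS, ZZ) := exists_theta.choose

lemma th_surj : Function.Surjective th := exists_theta.choose_spec

lemma exists_ext : ∃ g : C(I, ℕ → ℕ → ℝ), ∀ t : CS, g t = io (th t) := by
  obtain ⟨g, hg⟩ := ContinuousMap.exists_extension (isClosed_CS.isClosedEmbedding_subtypeVal)
    (⟨fun t => io (th t), continuous_io.comp th.continuous⟩ : C(CS, ℕ → ℕ → ℝ))
  refine ⟨g, fun t => ?_⟩
  have := congrArg (fun h : C(CS, ℕ → ℕ → ℝ) => h t) hg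
  exact this

/-- The extension. -/
noncomputable def gg : C(I, ℕ → ℕ → ℝ) := exists_ext.choose

lemma gg_eq (t : I) (ht : t ∈ CS) : gg t = io (th ⟨t, ht⟩) := exists_ext.choose_spec ⟨t, ht⟩

/-- The ambient space. -/
abbrev EE : Type := (ℕ → ℕ → ℝ) × ℝ × ℝ

/-- The parametrisation. -/
noncomputable def Ph (t : I) : EE :=
  (gg t, Metric.infDist t CS, (t : ℝ) * Metric.infDist t CS)

lemma continuous_Ph : Continuous Ph := by
  have h : Continuous fun t : I => Metric.infDist t CS := Metric.continuous_infDist_pt _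
  exact gg.continuous.prodMk (h.prodMk (continuous_subtype_val.mul h))

lemma mem_CS_iff (t : I) : t ∈ CS ↔ Metric.infDist t CS = 0 :=
  isClosed_CS.mem_iff_infDist_zero ⟨0, zero_mem_CS⟩

/-- The space. -/
abbrev XX : Type := range Ph

/-- The parametrisation of `XX`. -/
noncomputable def Pf (t : I) : XX := ⟨Ph t, t, rfl⟩

lemma continuous_Pf : Continuous Pf := continuous_Ph.subtype_mk _

lemma Pf_surj : Function.Surjective Pf := by
  rintro ⟨_, t, rfl⟩
  exact ⟨t, rfl⟩

lemma Pf_eq {s t : I} (h : Pf s = Pf t) (hs : s ∉ CS) : s = t := by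
  have h1 : Ph s = Ph t := congrArg Subtype.val h
  have h2 : Metric.infDist s CS = Metric.infDist t CS := congrArg (fun p : EE => p.2.1) h1
  have h3 : (s : ℝ) * Metric.infDist s CS = t * Metric.infDist t CS :=
    congrArg (fun p : EE => p.2.2) h1
  rw [mem_CS_iff] at hs
  rw [← h2] at h3
  exact Subtype.ext (mul_right_cancel₀ hs h3)

instance : CompactSpace XX := isCompact_iff_compactSpace.mp (isCompact_range continuous_Ph)

instance : ConnectedSpace XX :=
  isConnected_iff_connectedSpace.1 (isConnected_range continuous_Ph)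

instance inst_lc : LocallyPathConnectedSpace XX := by
  have hI : LocallyPathConnectedSpace I := by
    have h : LocallyPathConnectedSpace (Fin 1 → I) := inferInstance
    have e : I ≃ₜ (Fin 1 → I) := (Homeomorph.funUnique (Fin 1) I).symm
    exact e.symm.isQuotientMap.locallyPathConnectedSpace
  exact (continuous_Pf.isClosedMap.isQuotientMap continuous_Pf Pf_surj).locallyPathConnectedSpace

/-- The copy of `ZZ`. -/
def Zc : Set XX := {x | x.1.2.1 = 0}

lemma Pf_mem (t : I) : Pf t ∈ Zc ↔ t ∈ CS := (mem_CS_iff t).symm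

lemma Zc_coord {x : XX} (hx : x ∈ Zc) : ∃ z : ZZ, x.1 = (io z, 0, 0) := by
  obtain ⟨t, rfl⟩ := Pf_surj x
  rw [Pf_mem] at hx
  refine ⟨th ⟨t, hx⟩, ?_⟩
  have h := (mem_CS_iff t).1 hx
  show Ph t = _
  unfold Ph
  rw [h, gg_eq t hx, mul_zero]

theorem pathFree_Zc : PathFree Zc := by
  intro p hp
  choose z hz using fun t => Zc_coord (hp t)
  have hcont : Continuous z := by
    rw [io_emb.isEmbedding.continuous_iff]
    have : io ∘ z = fun t => (p t).1.1 := by
      funext t
      simp only [Function.comp_apply, hz]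
    rw [this]
    exact continuous_fst.comp (continuous_subtype_val.comp p.continuous)
  have h01 : z 0 = z 1 := by
    funext i
    exact pa_path ⟨fun t => z t i, (continuous_apply i).comp hcont⟩
  apply Subtype.ext
  rw [hz, hz, h01]

theorem rimFin_Zc : RimFin Zc := by
  intro x hx W hW Q hQ
  obtain ⟨t0, rfl⟩ := Pf_surj x
  rw [Pf_mem] at hx
  have hO : Pf ⁻¹' W ∩ CSᶜ ∈ 𝓝 t0 :=
    inter_mem (continuous_Pf.continuousAt hW) (isClosed_CS.isOpen_compl.mem_nhds hx)
  have h0 : (0 : I) < t0 := by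
    refine lt_of_le_of_ne unitInterval.nonneg' ?_
    rintro rfl
    exact hx zero_mem_CS
  have h1 : t0 < (1 : I) := by
    refine lt_of_le_of_ne unitInterval.le_one' ?_
    rintro rfl
    exact hx one_mem_CS
  obtain ⟨l, hl, hl'⟩ := exists_Ioc_subset_of_mem_nhds hO ⟨0, h0⟩
  obtain ⟨u, hu, hu'⟩ := exists_Ico_subset_of_mem_nhds hO ⟨1, h1⟩
  -- choose the ends outside of `Q`
  have hch : ∀ a b : I, a < b → (∀ x, a < x → x < b → x ∉ CS) →
      ∃ c, a < c ∧ c < b ∧ Pf c ∉ Q := by
    intro a b hab hC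
    by_contra hcon
    push Not at hcon
    have hfin : (Pf '' Ioo a b).Finite := hQ.subset (by
      rintro _ ⟨c, hc, rfl⟩
      exact hcon c hc.1 hc.2)
    have hinj : InjOn Pf (Ioo a b) := fun s hs t ht h => Pf_eq h (hC s hs.1 hs.2)
    exact (Ioo_infinite hab) ((finite_image_iff hinj).1 hfin)
  obtain ⟨t1, ht1a, ht1b, ht1Q⟩ := hch l t0 hl (fun x h1 h2 => (hl' ⟨h1, h2.le⟩).2)
  obtain ⟨t2, ht2a, ht2b, ht2Q⟩ := hch t0 u hu (fun x h1 h2 => (hu' ⟨h1.le, h2⟩).2)
  have hnot : ∀ t ∈ Icc t1 t2, t ∉ CS ∧ Pf t ∈ W := by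
    intro t ht
    rcases le_total t t0 with h | h
    · have := hl' ⟨lt_of_lt_of_le ht1a ht.1, h⟩
      exact ⟨this.2, this.1⟩
    · have := hu' ⟨h, lt_of_le_of_lt ht.2 ht2b⟩
      exact ⟨this.2, this.1⟩
  have ht1 : t1 ∈ Icc t1 t2 := ⟨le_rfl, (ht1b.trans ht2a).le⟩
  have ht2 : t2 ∈ Icc t1 t2 := ⟨(ht1b.trans ht2a).le, le_rfl⟩
  have hVc : (Pf '' Ioo t1 t2)ᶜ = Pf '' (Ioo t1 t2)ᶜ := by
    ext x
    constructor
    · intro hx
      obtain ⟨t, rfl⟩ := Pf_surj x
      exact ⟨t, fun ht => hx ⟨t, ht, rfl⟩, rfl⟩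
    · rintro ⟨t, ht, rfl⟩ ⟨s, hs, e⟩
      have := Pf_eq e (hnot s ⟨hs.1.le, hs.2.le⟩).1
      rw [this] at hs
      exact ht hs
  have hVo : IsOpen (Pf '' Ioo t1 t2) := by
    rw [← isClosed_compl_iff, hVc]
    exact continuous_Pf.isClosedMap _ isOpen_Ioo.isClosed_compl
  refine ⟨Pf '' Ioo t1 t2, hVo, ⟨t0, ⟨ht1b, ht2a⟩, rfl⟩, ?_, {Pf t1, Pf t2}, by simp, ?_, ?_, ?_⟩
  · rintro _ ⟨t, ht, rfl⟩
    exact (hnot t ⟨ht.1.le, ht.2.le⟩).2
  · rw [disjoint_left]
    rintro x (rfl | rfl) hx
    · exact (hnot t1 ht1).1 ((Pf_mem t1).1 hx)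
    · exact (hnot t2 ht2).1 ((Pf_mem t2).1 hx)
  · rw [disjoint_left]
    rintro x (rfl | rfl) hx
    · exact ht1Q hx
    · exact ht2Q hx
  · rw [hVo.frontier_eq]
    rintro x ⟨hx1, hx2⟩
    have h3 : IsClosed (Pf '' Icc t1 t2) := continuous_Pf.isClosedMap _ isClosed_Icc
    have h4 : x ∈ Pf '' Icc t1 t2 := closure_minimal (image_mono Ioo_subset_Icc_self) h3 hx1
    obtain ⟨t, ht, rfl⟩ := h4
    rcases ht.1.lt_or_eq with h | h
    · rcases ht.2.lt_or_eq with h' | h'
      · exact absurd ⟨t, ⟨h, h'⟩, rfl⟩ hx2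
      · rw [h']
        exact Or.inr rfl
    · rw [← h]
      exact Or.inl rfl

/-- The embedding of `ZZ`. -/
noncomputable def ez (z : ZZ) : XX := ⟨(io z, 0, 0), by
  obtain ⟨t, ht⟩ := th_surj z
  refine ⟨t.1, ?_⟩
  have h := (mem_CS_iff t.1).1 t.2
  unfold Ph
  rw [h, gg_eq t.1 t.2, mul_zero, ht]⟩

lemma continuous_ez : Continuous ez :=
  (continuous_io.prodMk continuous_const).subtype_mk _

lemma ez_inj : Function.Injective ez := by
  intro z z' h
  exact io_inj (congrArg (fun x : XX => x.1.1) h)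

theorem not_dimLE_XX (n : ℕ) : ¬ DimLE XX n := by
  intro h
  obtain ⟨a, b, hab⟩ := exists_pair_ne PA
  let e : (Fin (n + 1) → PA) → ZZ := fun x i => if h : i < n + 1 then x ⟨i, h⟩ else a
  have he : Continuous e := by
    refine continuous_pi fun i => ?_
    by_cases h : i < n + 1
    · simp only [e, dif_pos h]
      exact continuous_apply _
    · simp only [e, dif_neg h]
      exact continuous_const
  have hinj : Function.Injective e := by
    intro x y hxy
    funext i
    have := congrFun hxy i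
    simp only [e, dif_pos i.2] at this
    exact this
  have hemb : IsClosedEmbedding fun x => ez (e x) :=
    (continuous_ez.comp he).isClosedEmbedding (ez_inj.comp hinj)
  exact not_dimLE_pow hab n (dimLE_closed hemb h)

end Pool.Agent.Helper49K9.PC
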