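import Mathlib

set_option autoImplicit false

/-!
Separation by closed sets in simply connected, locally path connected spaces.
-/

open Set Topology Filter unitInterval

namespace Pool.Agent.Helper49K9.PC

section lift

variable {Y : Type*} [TopologicalSpace Y] [SimplyConnectedSpace Y] [LocallyPathConnectedSpace Y]

/-- Circle-valued maps lift to the line. -/
lemma lift_circle (g : C(Y, AddCircle (1 : ℝ))) :
    ∃ φ : C(Y, ℝ), ∀ y, ((φ y : ℝ) : AddCircle (1 : ℝ)) = g y := by
  obtain ⟨y0⟩ : Nonempty Y := inferInstance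
  obtain ⟨e0, he0⟩ : ∃ e0 : ℝ, ((e0 : ℝ) : AddCircle (1 : ℝ)) = g y0 :=
    QuotientAddGroup.mk_surjective (g y0)
  obtain ⟨F, ⟨_, hF⟩, _⟩ :=
    (AddCircle.isCoveringMap_coe (1 : ℝ)).existsUnique_continuousMap_lifts g y0 e0 he0
  exact ⟨F, fun y => congrFun hF y⟩

end lift

/-- An integer-valued continuous function is constant on connected sets. -/
lemma int_const {Y : Type*} [TopologicalSpace Y] {S : Set Y} (hS : IsPreconnected S) {v : Y → ℝ}
    (hv : Continuous v) (hint : ∀ y ∈ S, ∃ n : ℤ, v y = n) {x y : Y} (hx : x ∈ S) (hy : y ∈ S) :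
    v x = v y := by
  by_contra hne
  wlog hlt : v x < v y generalizing x y with H
  · exact H hy hx (Ne.symm hne) (lt_of_le_of_ne (not_lt.1 hlt) (Ne.symm hne))
  obtain ⟨n, hn⟩ := hint x hx
  obtain ⟨m, hm⟩ := hint y hy
  have h1 : n < m := by
    rw [hn, hm] at hlt
    exact_mod_cast hlt
  have h2 : (n : ℝ) + 1 ≤ m := by exact_mod_cast h1
  have h3 : (v x + 1 / 2) ∈ v '' S := by
    have h4 : (v '' S).OrdConnected := (hS.image v hv.continuousOn).ordConnected
    apply h4.out (mem_image_of_mem v hx) (mem_image_of_mem v hy)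
    constructor
    · linarith
    · rw [hn, hm]
      linarith
  obtain ⟨z, hz, hz1⟩ := h3
  obtain ⟨k, hk⟩ := hint z hz
  rw [hk, hn] at hz1
  have h5 : (2 * k : ℝ) = 2 * n + 1 := by linarith
  have h6 : (2 * k : ℤ) = 2 * n + 1 := by exact_mod_cast h5
  omega

lemma coe_eq_iff (a b : ℝ) : ((a : ℝ) : AddCircle (1 : ℝ)) = (b : ℝ) ↔ ∃ n : ℤ, a - b = n := by
  rw [← sub_eq_zero, ← AddCircle.coe_sub, AddCircle.coe_eq_zero_iff]
  simp only [zsmul_eq_mul, mul_one]
  exact ⟨fun ⟨n, hn⟩ => ⟨n, hn.symm⟩, fun ⟨n, hn⟩ => ⟨n, hn.symm⟩⟩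

section W

variable {Y : Type*} [TopologicalSpace Y] [NormalSpace Y] [SimplyConnectedSpace Y]
  [LocallyPathConnectedSpace Y]

/-- The boundary of a connected open set, seen from a connected set outside of it, does not split
into two disjoint closed parts. -/
lemma lemW {D C A B : Set Y} (hD : IsPreconnected D) (hDo : IsOpen D) (hA : IsClosed A)
    (hB : IsClosed B) (hAB : Disjoint A B) (hfr : frontier D ⊆ A ∪ B) (hC : IsPreconnected C)
    (hCD : Disjoint C D) {a b : Y} (haC : a ∈ C) (haD : a ∈ closure D) (haA : a ∈ A)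
    (hbC : b ∈ C) (hbD : b ∈ closure D) (hbB : b ∈ B) : False := by
  classical
  obtain ⟨l, hl0, hl1, -⟩ := exists_continuous_zero_one_of_isClosed hA hB hAB
  have hkey : ∀ y ∈ A ∪ B, (((l y / 2 : ℝ)) : AddCircle (1 : ℝ)) = ((-(l y) / 2 : ℝ) : AddCircle (1 : ℝ)) := by
    intro y hy
    rw [coe_eq_iff]
    rcases hy with hy | hy
    · refine ⟨0, ?_⟩
      rw [hl0 hy]
      simp
    · refine ⟨1, ?_⟩
      rw [hl1 hy]
      simp
      norm_num
  let g : Y → AddCircle (1 : ℝ) := fun y =>
    if y ∈ D then ((l y / 2 : ℝ) : AddCircle (1 : ℝ)) else ((-(l y) / 2 : ℝ) : AddCircle (1 : ℝ))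
  have hg : Continuous g := by
    refine Continuous.if ?_ ?_ ?_
    · intro y hy
      exact hkey y (hfr hy)
    · exact (AddCircle.continuous_mk' (1 : ℝ)).comp (by fun_prop)
    · exact (AddCircle.continuous_mk' (1 : ℝ)).comp (by fun_prop)
  obtain ⟨φ, hφ⟩ := lift_circle ⟨g, hg⟩
  have h1 : ∀ y ∈ closure D, ∃ n : ℤ, φ y - l y / 2 = n := by
    intro y hy
    rw [← coe_eq_iff, hφ]
    show g y = _
    by_cases hyD : y ∈ D
    · simp only [g, if_pos hyD]
    · simp only [g, if_neg hyD]
      refine (hkey y (hfr ?_)).symm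
      rw [hDo.frontier_eq]
      exact ⟨hy, hyD⟩
  have h2 : ∀ y ∈ C, ∃ n : ℤ, φ y - -(l y) / 2 = n := by
    intro y hy
    have hyD : y ∉ D := fun h => disjoint_left.1 hCD hy h
    rw [← coe_eq_iff, hφ]
    show g y = _
    simp only [g, if_neg hyD]
  have e1 := int_const hD.closure (v := fun y => φ y - l y / 2) (by fun_prop) h1 haD hbD
  have e2 := int_const hC (v := fun y => φ y - -(l y) / 2) (by fun_prop) h2 haC hbC
  have ea : l a = 0 := by simpa using hl0 haA
  have eb : l b = 1 := by simpa using hl1 hbB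
  simp only [ea, eb] at e1 e2
  linarith

/-- The boundary of a component of an open set lies outside of the open set. -/
lemma frontier_comp {Y : Type*} [TopologicalSpace Y] [LocallyConnectedSpace Y] {O : Set Y}
    (hO : IsOpen O) (s : Y) : frontier (connectedComponentIn O s) ⊆ Oᶜ := by
  intro y hy hyO
  have hy1 : y ∈ closure (connectedComponentIn O s) := frontier_subset_closure hy
  have ho : IsOpen (connectedComponentIn O y) := hO.connectedComponentIn
  obtain ⟨z, hz1, hz2⟩ := mem_closure_iff.1 hy1 _ ho (mem_connectedComponentIn hyO)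
  have e1 := connectedComponentIn_eq hz1
  have e2 := connectedComponentIn_eq hz2
  have h3 : y ∈ connectedComponentIn O s := by
    rw [e2, ← e1]
    exact mem_connectedComponentIn hyO
  have h4 : IsOpen (connectedComponentIn O s) := hO.connectedComponentIn
  rw [h4.frontier_eq] at hy
  exact hy.2 h3

/-- The first point at which a path enters an open set. -/
lemma enter {Y : Type*} [TopologicalSpace Y] {D S : Set Y} (hD : IsOpen D) {s' s : Y}
    (h : JoinedIn S s' s) (h1 : s' ∉ D) (h2 : s ∈ D) :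
    ∃ C : Set Y, IsPreconnected C ∧ s' ∈ C ∧ Disjoint C D ∧ C ⊆ S ∧ ∃ x ∈ C, x ∈ closure D := by
  obtain ⟨γ, hγ⟩ := h
  let T : Set I := {t | γ t ∈ D}
  have hT : IsOpen T := hD.preimage γ.continuous
  have hTne : T.Nonempty := ⟨1, by simpa [T] using h2⟩
  have hlt : ∀ t : I, t < sInf T → γ t ∉ D := fun t ht hD' =>
    not_lt.2 (sInf_le (show t ∈ T from hD')) ht
  have hinf : γ (sInf T) ∉ D := by
    intro hD'
    have h0 : sInf T ≠ 0 := by
      intro h0
      rw [h0] at hD'
      simp at hD'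
      exact h1 hD'
    have hpos : 0 < sInf T := lt_of_le_of_ne unitInterval.nonneg' (Ne.symm h0)
    have hmem : T ∈ 𝓝 (sInf T) := hT.mem_nhds hD'
    obtain ⟨l, hl, hl'⟩ := exists_Ioc_subset_of_mem_nhds hmem ⟨0, hpos⟩
    obtain ⟨m, hm1, hm2⟩ := exists_between hl
    exact hlt m hm2 (hl' ⟨hm1, hm2.le⟩)
  refine ⟨γ '' Icc 0 (sInf T), (isPreconnected_Icc).image _ γ.continuous.continuousOn,
    ⟨0, ⟨le_rfl, unitInterval.nonneg'⟩, γ.source⟩, ?_, ?_, γ (sInf T),
    ⟨_, ⟨unitInterval.nonneg', le_rfl⟩, rfl⟩, ?_⟩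
  · rw [disjoint_left]
    rintro _ ⟨t, ht, rfl⟩ hD'
    rcases ht.2.lt_or_eq with h | h
    · exact hlt t h hD'
    · rw [h] at hD'
      exact hinf hD'
  · rintro _ ⟨t, ht, rfl⟩
    exact hγ t
  · have h3 : sInf T ∈ closure T := csInf_mem_closure hTne (OrderBot.bddBelow T)
    have h4 : γ (sInf T) ∈ γ '' closure T := mem_image_of_mem _ h3
    have h5 := image_closure_subset_closure_image γ.continuous h4
    refine closure_mono ?_ h5
    rintro _ ⟨t, ht, rfl⟩
    exact ht

/-- Janiszewski's theorem for two disjoint closed sets. -/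
lemma lemJ {A B : Set Y} (hA : IsClosed A) (hB : IsClosed B) (hAB : Disjoint A B) {s s' : Y}
    (h1 : JoinedIn Aᶜ s s') (h2 : JoinedIn Bᶜ s s') : JoinedIn (A ∪ B)ᶜ s s' := by
  have hO : IsOpen (A ∪ B)ᶜ := (hA.union hB).isOpen_compl
  have hs : s ∈ (A ∪ B)ᶜ := by
    rw [compl_union]
    exact ⟨h1.source_mem, h2.source_mem⟩
  have hs' : s' ∈ (A ∪ B)ᶜ := by
    rw [compl_union]
    exact ⟨h1.target_mem, h2.target_mem⟩
  have hDo : IsOpen (connectedComponentIn (A ∪ B)ᶜ s) := hO.connectedComponentIn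
  have hsD : s ∈ connectedComponentIn (A ∪ B)ᶜ s := mem_connectedComponentIn hs
  have hfr : frontier (connectedComponentIn (A ∪ B)ᶜ s) ⊆ A ∪ B := by
    have := frontier_comp hO s
    rwa [compl_compl] at this
  by_cases hs'D : s' ∈ connectedComponentIn (A ∪ B)ᶜ s
  · have hc : IsConnected (connectedComponentIn (A ∪ B)ᶜ s) :=
      isConnected_connectedComponentIn_iff.2 hs
    have hp := hDo.isConnected_iff_isPathConnected.1 hc
    exact (hp.joinedIn s hsD s' hs'D).mono (connectedComponentIn_subset _ _)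
  · exfalso
    obtain ⟨C1, hC1, hs1, hC1D, hC1S, x1, hx1, hx1D⟩ := enter hDo h1.symm hs'D hsD
    obtain ⟨C2, hC2, hs2, hC2D, hC2S, x2, hx2, hx2D⟩ := enter hDo h2.symm hs'D hsD
    have hx1' : x1 ∈ B := by
      have : x1 ∈ frontier (connectedComponentIn (A ∪ B)ᶜ s) := by
        rw [hDo.frontier_eq]
        exact ⟨hx1D, fun h => disjoint_left.1 hC1D hx1 h⟩
      rcases hfr this with h | h
      · exact absurd h (hC1S hx1)
      · exact h
    have hx2' : x2 ∈ A := by
      have : x2 ∈ frontier (connectedComponentIn (A ∪ B)ᶜ s) := by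
        rw [hDo.frontier_eq]
        exact ⟨hx2D, fun h => disjoint_left.1 hC2D hx2 h⟩
      rcases hfr this with h | h
      · exact h
      · exact absurd h (hC2S hx2)
    have hC : IsPreconnected (C1 ∪ C2) := hC1.union s' hs1 hs2 hC2
    exact lemW isPreconnected_connectedComponentIn hDo hA hB hAB hfr hC
      (hC1D.union_left hC2D) (Or.inr hx2) hx2D hx2' (Or.inl hx1) hx1D hx1'

end W

section comp

variable {Y : Type*} [TopologicalSpace Y] [CompactSpace Y] [T2Space Y] [SimplyConnectedSpace Y]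
  [LocallyPathConnectedSpace Y]

/-- If a closed set separates two points then so does one of its components. -/
lemma lemK {A : Set Y} (hA : IsClosed A) {s s' : Y}
    (h : ∀ a ∈ A, JoinedIn (connectedComponentIn A a)ᶜ s s') : JoinedIn Aᶜ s s' := by
  have key : ∃ W : Set Y, IsClosed W ∧ W ⊆ A ∧ IsClosed (A \ W) ∧ A ⊆ W ∧ JoinedIn Wᶜ s s' := by
    refine IsCompact.induction_on hA.isCompact
      (p := fun S => ∃ W : Set Y, IsClosed W ∧ W ⊆ A ∧ IsClosed (A \ W) ∧ S ⊆ W ∧
        JoinedIn Wᶜ s s') ?_ ?_ ?_ ?_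
    · refine ⟨∅, isClosed_empty, empty_subset _, by simpa using hA, Subset.rfl, ?_⟩
      rw [compl_empty, joinedIn_univ]
      exact PathConnectedSpace.joined s s'
    · rintro S T hST ⟨W, h1, h2, h3, h4, h5⟩
      exact ⟨W, h1, h2, h3, hST.trans h4, h5⟩
    · rintro S T ⟨W, h1, h2, h3, h4, h5⟩ ⟨W', h1', h2', h3', h4', h5'⟩
      have hd : W' \ W = W' ∩ (A \ W) := by
        ext y
        simp only [Set.mem_sdiff, mem_inter_iff]
        exact ⟨fun ⟨a, b⟩ => ⟨a, h2' a, b⟩, fun ⟨a, _, b⟩ => ⟨a, b⟩⟩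
      have hcl : IsClosed (W' \ W) := by
        rw [hd]
        exact h1'.inter h3
      refine ⟨W ∪ W' \ W, h1.union hcl, union_subset h2 (sdiff_subset.trans h2'), ?_, ?_, ?_⟩
      · rw [union_sdiff_self, ← Set.sdiff_sdiff]
        have : (A \ W) \ W' = (A \ W) ∩ (A \ W') := by
          ext y
          simp only [Set.mem_sdiff, mem_inter_iff]
          tauto
        rw [this]
        exact h3.inter h3'
      · rw [union_sdiff_self]
        exact union_subset_union h4 h4'
      · refine lemJ h1 hcl disjoint_sdiff_right h5 (h5'.mono ?_)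
        exact compl_subset_compl.2 sdiff_subset
    · intro a ha
      obtain ⟨γ, hγ⟩ := h a ha
      have : CompactSpace A := isCompact_iff_compactSpace.mp hA.isCompact
      let K : Set A := Subtype.val ⁻¹' (range γ)
      have hK : IsCompact K := by
        have : IsClosed K := (isCompact_range γ.continuous).isClosed.preimage continuous_subtype_val
        exact this.isCompact
      have hdis : K ∩ (⋂ Z : {Z : Set A // IsClopen Z ∧ (⟨a, ha⟩ : A) ∈ Z}, (Z : Set A)) = ∅ := by
        rw [← connectedComponent_eq_iInter_isClopen]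
        ext x
        simp only [mem_inter_iff, mem_empty_iff_false, iff_false, not_and]
        rintro ⟨t, ht⟩ hx
        apply hγ t
        rw [connectedComponentIn_eq_image ha]
        exact ⟨x, hx, ht.symm⟩
      have : Nonempty {Z : Set A // IsClopen Z ∧ (⟨a, ha⟩ : A) ∈ Z} :=
        ⟨⟨univ, isClopen_univ, mem_univ _⟩⟩
      obtain ⟨⟨Z, hZ, haZ⟩, hZK⟩ := hK.elim_directed_family_closed
        (fun Z : {Z : Set A // IsClopen Z ∧ (⟨a, ha⟩ : A) ∈ Z} => (Z : Set A))
        (fun Z => Z.2.1.isClosed) hdis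
        (fun Z Z' => ⟨⟨Z.1 ∩ Z'.1, Z.2.1.inter Z'.2.1, Z.2.2, Z'.2.2⟩, inter_subset_left,
          inter_subset_right⟩)
      have hemb := hA.isClosedEmbedding_subtypeVal
      refine ⟨Subtype.val '' Z, ?_, Subtype.val '' Z, hemb.isClosedMap _ hZ.isClosed, ?_, ?_,
        Subset.rfl, ?_⟩
      · rw [nhdsWithin_eq_map_subtype_coe ha, mem_map]
        rw [preimage_image_eq _ Subtype.val_injective]
        exact hZ.isOpen.mem_nhds haZ
      · rintro _ ⟨z, _, rfl⟩
        exact z.2
      · have : A \ Subtype.val '' Z = Subtype.val '' Zᶜ := by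
          ext y
          constructor
          · rintro ⟨hy, hy'⟩
            exact ⟨⟨y, hy⟩, fun h => hy' ⟨_, h, rfl⟩, rfl⟩
          · rintro ⟨z, hz, rfl⟩
            refine ⟨z.2, ?_⟩
            rintro ⟨z', hz', e⟩
            rw [Subtype.val_injective e] at hz'
            exact hz hz'
        rw [this]
        exact hemb.isClosedMap _ hZ.compl.isClosed
      · refine ⟨γ, fun t => ?_⟩
        rintro ⟨z, hz, e⟩
        have : z ∈ K ∩ Z := ⟨⟨t, e.symm⟩, hz⟩
        rw [hZK] at this
        exact this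
  obtain ⟨W, _, h2, _, h4, h5⟩ := key
  rwa [subset_antisymm h2 h4] at h5

/-- A finite union of disjoint closed sets which do not separate two points does not separate
them. -/
lemma lemFin {X : Type*} [TopologicalSpace X] [T1Space X] {f : Y → X} (hf : Continuous f)
    {s s' : Y} {K : Set X} (hK : K.Finite)
    (h : ∀ p ∈ K, JoinedIn (f ⁻¹' {p})ᶜ s s') : JoinedIn (f ⁻¹' K)ᶜ s s' := by
  induction K, hK using Set.Finite.induction_on with
  | empty =>
    rw [preimage_empty, compl_empty, joinedIn_univ]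
    exact PathConnectedSpace.joined s s'
  | @insert a K ha hK ih =>
    have e : f ⁻¹' (insert a K) = f ⁻¹' {a} ∪ f ⁻¹' K := by
      rw [← preimage_union]
      rfl
    rw [e]
    refine lemJ (isClosed_singleton.preimage hf) (hK.isClosed.preimage hf) ?_
      (h a (mem_insert _ _)) (ih fun p hp => h p (mem_insert_of_mem _ hp))
    rw [disjoint_left]
    intro y hy hy'
    rw [mem_preimage, mem_singleton_iff] at hy
    rw [mem_preimage, hy] at hy'
    exact ha hy'

end comp

end Pool.Agent.Helper49K9.PC
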